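import Pool.Agent.Q169.RC.GoodP
import Pool.Agent.W497.FS.Sphere

set_option autoImplicit false

/-!
# Bounds for the Euler characteristics of links, and the gamma-vector
-/

namespace Pool.Agent.Q169.RC

open Finset Pool.Agent.W907.SG Pool.Agent.W907.SM Pool.Agent.W555.KS Pool.Agent.TH652.Above

variable {N : ℕ}

section main

variable {n : ℕ} (G : SimpleGraph (Fin N)) (K : Finset (Finset (Fin N)))
    (hK : ∀ S : Finset (Fin N), S ∈ K ↔ G.IsClique (S : Set (Fin N))) (h2 : Pool.Agent.Y131.KS.HSph K n)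
    (hR : HSph n G)

include hK h2 hR in
theorem R_all (T : Finset (Fin N)) (hT : G.IsClique (T : Set (Fin N)))
    (hg : ∀ T' : Finset (Fin N), T ⊆ T' → G.IsClique (T' : Set (Fin N)) → Good n G T') : R n G T := by
  have h3 : T.card ≤ n := h2.card_le _ ((hK _).2 hT)
  exact R_of_good G K hK h2 hR (n - T.card) T (by omega) hT hg

include hR in
theorem singer_at {m : ℕ} (T : Finset (Fin N)) (hT : G.IsClique (T : Set (Fin N))) (hn : n = T.card + 2 * m)
    (h : R n G T) (i : ℕ) (hi : i ≠ m) : LV (G.induce (lk G T)) i := by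
  classical
  refine lv_of (singer_of_above (n := 2 * m) (HSph_lk G T hT hn hR) (fun j hj => ?_) i (by omega))
  exact h (lk G T) (le_refl _) j (by omega) _ _

include hK h2 hR in
theorem sign_at {m : ℕ} (T : Finset (Fin N)) (hT : G.IsClique (T : Set (Fin N))) (hn : n = T.card + 2 * m)
    (B : Set (Fin N)) (κ : Fin N → Fin (m + 1))
    (hκ : ∀ u v, u ∈ B → v ∈ B → G.Adj u v → κ u ≠ κ v)
    (hB : ∀ v, v ∈ lk G T → v ∉ B → ∀ T' : Finset (Fin N), insert v T ⊆ T' → G.IsClique (T' : Set (Fin N)) →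
      Good n G T') :
    0 ≤ (-1 : ℚ) ^ m * chiS G (lk G T) := by
  classical
  have h3 : R n G T := R_even G K hK h2 T hT hn B κ hκ
    (fun v hv hvB => R_all G K hK h2 hR _ (clique_insert hT hv) (hB v hv hvB))
  have h4 := chi_sign (m := m) (G.induce (lk G T)) (fun i hi => singer_at G hR T hT hn h3 i hi _ _)
  rw [chiW_induce] at h4
  exact h4

include hK h2 hR in
theorem join_at {m : ℕ} (T : Finset (Fin N)) (hT : G.IsClique (T : Set (Fin N))) (hn : n = T.card + 2 * m)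
    (hg : ∀ T' : Finset (Fin N), T ⊆ T' → G.IsClique (T' : Set (Fin N)) → Good n G T')
    (A : Set (Fin N)) (hA : A ⊆ lk G T) (p : Fin N → Fin m)
    (hadj : ∀ u ∈ A, ∀ v ∈ A, p u ≠ p v → G.Adj u v)
    (hne : ∀ j, ∃ s ∈ A, ∃ t ∈ A, p s = j ∧ p t = j ∧ s ≠ t ∧ ¬ G.Adj s t) :
    ∏ j : Fin m, (- chiS G (A ∩ {v | p v = j})) ≤ (-1 : ℚ) ^ m * chiS G (lk G T) := by
  classical
  have h3 := R_all G K hK h2 hR T hT hg
  have h1 := chi_mono G m A (lk G T) hA (fun v hv D hD => by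
    refine R_all G K hK h2 hR (insert v T) (clique_insert hT hv)
      (fun T' h5 h6 => hg T' ((subset_insert v T).trans h5) h6) D ?_ m ?_
    · exact hD.trans (lk_insert_sub (le_refl _))
    · rw [card_insert_of_notMem (notMem_of_lk hv)]
      omega) (fun i hi he => by
    rcases lt_or_gt_of_ne hi with h | h
    · refine join_lv G p _ A Finset.univ rfl (fun u hu v hv h _ => hadj u hu v hv h) (fun j _ => hne j) i ?_
      rw [Finset.card_univ, Fintype.card_fin]
      exact h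
    · exact h3 A hA i (by omega)) (fun i ho => by
    refine singer_at G hR T hT hn h3 i ?_
    rintro rfl
    exact (Nat.not_odd_iff_even.2 ⟨i, rfl⟩) ho)
  rw [chiS_join G p Finset.univ _ A rfl (fun u _ => Finset.mem_univ _) hadj] at h1
  rw [Finset.prod_neg, Finset.card_univ, Fintype.card_fin]
  exact h1

end main

/-! ### the gamma-vector -/

open Polynomial
open Pool.Agent.W497.FS (IsGamma)

theorem count_eq (G : SimpleGraph (Fin N)) (K : Finset (Finset (Fin N)))
    (hK : ∀ S : Finset (Fin N), S ∈ K ↔ G.IsClique (S : Set (Fin N))) {M : Type*} [AddCommMonoid M]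
    (g : Finset (Fin N) → M) : ∑ T ∈ K, g T = ∑ T : Finset (Fin N), (by
      classical exact if G.IsClique (T : Set (Fin N)) then g T else 0) := by
  classical
  have e : K = univ.filter (fun T : Finset (Fin N) => G.IsClique (T : Set (Fin N))) := by
    ext T
    rw [hK]
    simp
  rw [e, sum_filter]

/-- the top entry of the gamma-vector in even length -/
theorem gamma_even {m : ℕ} (G : SimpleGraph (Fin N)) (K : Finset (Finset (Fin N)))
    (hK : ∀ S : Finset (Fin N), S ∈ K ↔ G.IsClique (S : Set (Fin N))) (hd : ∀ S ∈ K, S.card ≤ 2 * m)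
    (γ : ℕ → ℤ) (hγ : IsGamma (2 * m) K γ) : (γ m : ℚ) = 4 ^ m * ((-1) ^ m * chiW G) := by
  classical
  have h1 := congrArg (Polynomial.eval (-1 : ℤ)) hγ
  rw [Polynomial.eval_finsetSum, Polynomial.eval_finsetSum] at h1
  simp only [eval_mul, eval_C, eval_pow, eval_X, eval_sub, eval_one, eval_add] at h1
  have e1 : (1 : ℤ) - -1 = 2 := by norm_num
  have e2 : (1 : ℤ) + -1 = 0 := by norm_num
  rw [e1, e2] at h1
  have h2 : ∑ i ∈ range (2 * m / 2 + 1), γ i * (-1) ^ i * 0 ^ (2 * m - 2 * i) = γ m * (-1) ^ m := by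
    rw [show 2 * m / 2 = m by omega, sum_range_succ, sum_eq_zero, zero_add, Nat.sub_self, pow_zero, mul_one]
    intro i hi
    rw [mem_range] at hi
    rw [zero_pow (by omega), mul_zero]
  rw [h2] at h1
  have h3 := congrArg (Int.cast : ℤ → ℚ) h1
  push_cast at h3
  have h4 : ∑ j ∈ range (2 * m + 1), (((K.filter (fun T => T.card = j)).card : ℕ) : ℚ) * (-1) ^ j * 2 ^ (2 * m - j) =
      4 ^ m * chiW G := by
    have h5 : chiW G = ∑ T ∈ K, (-1 / 2 : ℚ) ^ T.card := by
      rw [count_eq G K hK]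
      unfold chiW
      refine sum_congr rfl fun T _ => ?_
      congr
    have h6 : ∑ T ∈ K, (-1 / 2 : ℚ) ^ T.card = ∑ j ∈ range (2 * m + 1), ∑ T ∈ K.filter (fun T => T.card = j),
        (-1 / 2 : ℚ) ^ T.card := by
      rw [sum_fiberwise_of_maps_to]
      intro T hT
      rw [mem_range]
      have := hd T hT
      omega
    rw [h5, h6, mul_sum]
    refine sum_congr rfl fun j hj => ?_
    rw [mem_range] at hj
    rw [sum_congr rfl (fun T hT => by rw [(mem_filter.1 hT).2]), sum_const, nsmul_eq_mul]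
    have h7 : (4 : ℚ) ^ m = 2 ^ (2 * m - j) * 2 ^ j := by
      rw [← pow_add, show 2 * m - j + j = 2 * m by omega, pow_mul]
      norm_num
    rw [h7, div_pow]
    field_simp
  rw [h4] at h3
  have h8 : ((-1 : ℚ) ^ m) * (-1) ^ m = 1 := by
    rw [← mul_pow]
    norm_num
  calc (γ m : ℚ) = (γ m : ℚ) * ((-1) ^ m * (-1) ^ m) := by rw [h8, mul_one]
    _ = ((γ m : ℚ) * (-1) ^ m) * (-1) ^ m := by ring
    _ = 4 ^ m * ((-1) ^ m * chiW G) := by rw [← h3]; ring

theorem compl_inter (G : SimpleGraph (Fin N)) (v : Fin N) : ({v}ᶜ : Set (Fin N)) ∩ G.neighborSet v = lk G {v} := by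
  ext x
  constructor
  · rintro ⟨-, h⟩ t ht
    rw [mem_singleton] at ht
    rw [ht]
    exact (show G.Adj v x from h).symm
  · intro h
    have h1 := h v (mem_singleton_self v)
    exact ⟨fun e => h1.ne e, h1.symm⟩

/-- the sum of the cardinalities -/
theorem sum_card (G : SimpleGraph (Fin N)) (K : Finset (Finset (Fin N)))
    (hK : ∀ S : Finset (Fin N), S ∈ K ↔ G.IsClique (S : Set (Fin N))) :
    ∑ T ∈ K, (T.card : ℚ) * (-1 / 2 : ℚ) ^ T.card = (-1 / 2) * ∑ v, chiS G (lk G {v}) := by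
  classical
  have h1 : ∀ T ∈ K, (T.card : ℚ) * (-1 / 2 : ℚ) ^ T.card = ∑ v, if v ∈ T then (-1 / 2 : ℚ) ^ T.card else 0 := by
    intro T _
    rw [← sum_filter, sum_const, nsmul_eq_mul]
    congr 2
    congr 1
    ext v
    simp
  rw [sum_congr rfl h1, sum_comm, mul_sum]
  refine sum_congr rfl fun v _ => ?_
  have h2 := chiS_add G ({v}ᶜ : Set (Fin N)) v (by simp)
  rw [compl_inter] at h2
  have h3 : insert v ({v}ᶜ : Set (Fin N)) = Set.univ := by
    ext x
    simp only [Set.mem_insert_iff, Set.mem_compl_iff, Set.mem_singleton_iff, Set.mem_univ, iff_true]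
    exact em _
  rw [h3] at h2
  have h4 : ∑ T ∈ K, (if v ∈ T then (-1 / 2 : ℚ) ^ T.card else 0) = chiS G Set.univ - chiS G ({v}ᶜ : Set (Fin N)) := by
    rw [count_eq G K hK]
    unfold chiS
    rw [← sum_sub_distrib]
    refine sum_congr rfl fun T _ => ?_
    by_cases hT : G.IsClique (T : Set (Fin N))
    · have a1 : G.IsClique (T : Set (Fin N)) ∧ (T : Set (Fin N)) ⊆ Set.univ := ⟨hT, Set.subset_univ _⟩
      by_cases hv : v ∈ T
      · have a2 : ¬ (G.IsClique (T : Set (Fin N)) ∧ (T : Set (Fin N)) ⊆ ({v}ᶜ : Set (Fin N))) := by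
          rintro ⟨-, h⟩
          exact (h (mem_coe.2 hv)) rfl
        rw [if_pos hT, if_pos hv, if_pos a1, if_neg a2, sub_zero]
      · have a2 : G.IsClique (T : Set (Fin N)) ∧ (T : Set (Fin N)) ⊆ ({v}ᶜ : Set (Fin N)) :=
          ⟨hT, fun x hx e => hv (by rw [Set.mem_singleton_iff] at e; rw [← e]; exact hx)⟩
        rw [if_pos hT, if_neg hv, if_pos a1, if_pos a2, sub_self]
    · rw [if_neg hT, if_neg (fun h => hT h.1), if_neg (fun h => hT h.1), sub_zero]
  rw [h4]
  linarith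

theorem der1 (c : ℤ) (j k : ℕ) : Polynomial.eval (-1 : ℤ)
    (Polynomial.derivative (C c * X ^ j * (1 - X) ^ k)) =
    c * (j * (-1) ^ (j - 1)) * 2 ^ k + c * (-1) ^ j * (k * 2 ^ (k - 1) * (-1)) := by
  rw [derivative_mul, derivative_C_mul, derivative_X_pow, derivative_pow, derivative_sub, derivative_one, derivative_X]
  simp only [eval_add, eval_mul, eval_C, eval_pow, eval_X, eval_sub, eval_one, eval_zero]
  norm_num

theorem der2 (c : ℤ) (j k : ℕ) : Polynomial.eval (-1 : ℤ)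
    (Polynomial.derivative (C c * X ^ j * (1 + X) ^ k)) =
    c * (j * (-1) ^ (j - 1)) * 0 ^ k + c * (-1) ^ j * (k * 0 ^ (k - 1)) := by
  rw [derivative_mul, derivative_C_mul, derivative_X_pow, derivative_pow, derivative_add, derivative_one, derivative_X]
  simp only [eval_add, eval_mul, eval_C, eval_pow, eval_X, eval_one, eval_zero]
  norm_num

/-- the top entry of the gamma-vector in odd length -/
theorem gamma_odd {m : ℕ} (G : SimpleGraph (Fin N)) (K : Finset (Finset (Fin N)))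
    (hK : ∀ S : Finset (Fin N), S ∈ K ↔ G.IsClique (S : Set (Fin N))) (hd : ∀ S ∈ K, S.card ≤ 2 * m + 1)
    (h0 : chiW G = 0) (γ : ℕ → ℤ) (hγ : IsGamma (2 * m + 1) K γ) :
    (γ m : ℚ) = (1 / 2) * ∑ v, 4 ^ m * ((-1) ^ m * chiS G (lk G {v})) := by
  classical
  have h1 := congrArg (fun q => Polynomial.eval (-1 : ℤ) (Polynomial.derivative q)) hγ
  simp only [Polynomial.derivative_sum, Polynomial.eval_finsetSum, der1, der2] at h1
  have h2 : ∑ i ∈ range ((2 * m + 1) / 2 + 1),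
      (γ i * ((i : ℤ) * (-1) ^ (i - 1)) * 0 ^ (2 * m + 1 - 2 * i) +
        γ i * (-1) ^ i * (((2 * m + 1 - 2 * i : ℕ) : ℤ) * 0 ^ (2 * m + 1 - 2 * i - 1))) = γ m * (-1) ^ m := by
    rw [show (2 * m + 1) / 2 = m by omega, sum_range_succ, sum_eq_zero, zero_add]
    · rw [show 2 * m + 1 - 2 * m = 1 by omega]
      simp
    · intro i hi
      rw [mem_range] at hi
      rw [zero_pow (by omega : 2 * m + 1 - 2 * i ≠ 0), zero_pow (by omega : 2 * m + 1 - 2 * i - 1 ≠ 0)]
      simp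
  rw [h2] at h1
  have h3 := congrArg (Int.cast : ℤ → ℚ) h1
  push_cast at h3
  have h4 : ∀ j ∈ range (2 * m + 1 + 1), ((((K.filter (fun T => T.card = j)).card : ℕ) : ℚ) *
      ((j : ℚ) * (-1) ^ (j - 1)) * 2 ^ (2 * m + 1 - j) +
      (((K.filter (fun T => T.card = j)).card : ℕ) : ℚ) * (-1) ^ j *
        (((2 * m + 1 - j : ℕ) : ℚ) * 2 ^ (2 * m + 1 - j - 1) * (-1))) =
      ∑ T ∈ K.filter (fun T => T.card = j), (- 4 ^ m * ((2 * m + 1) * (-1 / 2 : ℚ) ^ T.card +
        (T.card : ℚ) * (-1 / 2 : ℚ) ^ T.card)) := by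
    intro j hj
    rw [mem_range] at hj
    rw [sum_congr rfl (fun T hT => by rw [(mem_filter.1 hT).2]), sum_const, nsmul_eq_mul]
    have key : ∀ c x y z : ℚ, x + y = z → c * x + c * y = c * z := fun c x y z h => by rw [← mul_add, h]
    rw [mul_assoc _ ((j : ℚ) * (-1) ^ (j - 1)) _, mul_assoc _ ((-1 : ℚ) ^ j) _]
    apply key
    have h7 : (4 : ℚ) ^ m * 2 = 2 ^ (2 * m + 1 - j) * 2 ^ j := by
      rw [← pow_add, show 2 * m + 1 - j + j = 2 * m + 1 by omega, pow_succ, pow_mul]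
      norm_num
    have h8 : (j : ℚ) * (-1) ^ (j - 1) = - (j * (-1) ^ j) := by
      rcases Nat.eq_zero_or_pos j with h | h
      · subst h; simp
      · obtain ⟨j', rfl⟩ : ∃ j', j = j' + 1 := ⟨j - 1, by omega⟩
        rw [Nat.add_sub_cancel, pow_succ]
        ring
    have h9 : ((2 * m + 1 - j : ℕ) : ℚ) * 2 ^ (2 * m + 1 - j - 1) * 2 =
        (2 * m + 1 - j) * 2 ^ (2 * m + 1 - j) := by
      rcases Nat.eq_zero_or_pos (2 * m + 1 - j) with h | h
      · have h10 : (2 * (m : ℚ) + 1 - j) = 0 := by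
          have h11 : j = 2 * m + 1 := by omega
          rw [h11]; push_cast; ring
        rw [h, h10]; simp
      · have h10 : ((2 * m + 1 - j : ℕ) : ℚ) = 2 * m + 1 - j := by
          rw [Nat.cast_sub (by omega)]; push_cast; ring
        rw [h10, mul_assoc, ← pow_succ, show 2 * m + 1 - j - 1 + 1 = 2 * m + 1 - j by omega]
    have h10 : (-1 / 2 : ℚ) ^ j * 2 ^ j = (-1) ^ j := by
      rw [← mul_pow]; norm_num
    have h11 : (2 : ℚ) ^ j ≠ 0 := by positivity
    rw [h8]
    have h12 : (4 : ℚ) ^ m * (-1 / 2 : ℚ) ^ j * 2 = 2 ^ (2 * m + 1 - j) * (-1) ^ j := by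
      calc (4 : ℚ) ^ m * (-1 / 2 : ℚ) ^ j * 2 = (4 ^ m * 2) * (-1 / 2 : ℚ) ^ j := by ring
        _ = 2 ^ (2 * m + 1 - j) * ((-1 / 2 : ℚ) ^ j * 2 ^ j) := by rw [h7]; ring
        _ = _ := by rw [h10]
    have h13 : ∀ x y : ℚ, x * 2 = y * 2 → x = y := fun x y h => by linarith
    apply h13
    calc _ = - (j * (-1) ^ j) * 2 ^ (2 * m + 1 - j) * 2 -
          (-1) ^ j * (((2 * m + 1 - j : ℕ) : ℚ) * 2 ^ (2 * m + 1 - j - 1) * 2) := by ring
      _ = - (2 ^ (2 * m + 1 - j) * (-1) ^ j) * (2 * m + 1 + j) := by rw [h9]; ring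
      _ = _ := by rw [← h12]; ring
  rw [sum_congr rfl h4, sum_fiberwise_of_maps_to (fun T hT => by
    rw [mem_range]
    have := hd T hT
    omega), ← mul_sum, sum_add_distrib, ← mul_sum, sum_card G K hK] at h3
  have h5 : chiW G = ∑ T ∈ K, (-1 / 2 : ℚ) ^ T.card := by
    rw [count_eq G K hK]
    unfold chiW
    refine sum_congr rfl fun T _ => ?_
    congr
  rw [← h5, h0, mul_zero, zero_add] at h3
  have h8 : ((-1 : ℚ) ^ m) * (-1) ^ m = 1 := by
    rw [← mul_pow]
    norm_num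
  have h9 : ∑ v, (4 : ℚ) ^ m * ((-1) ^ m * chiS G (lk G {v})) =
      4 ^ m * (-1) ^ m * ∑ v, chiS G (lk G {v}) := by
    rw [mul_sum]
    exact sum_congr rfl fun v _ => by ring
  rw [h9]
  calc (γ m : ℚ) = (γ m : ℚ) * ((-1) ^ m * (-1) ^ m) := by rw [h8, mul_one]
    _ = ((γ m : ℚ) * (-1) ^ m) * (-1) ^ m := by ring
    _ = _ := by rw [← h3]; ring

end Pool.Agent.Q169.RC
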