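import Pool.Agent.Q169.RC.GrowB
import Pool.Agent.Q169.RC.AtT

set_option autoImplicit false

/-!
# Full subcomplexes of homology spheres: compact manifolds with boundary
-/

namespace Pool.Agent.Q169.RC

open Finset Pool.Agent.W907.SG Pool.Agent.W907.SM Pool.Agent.W555.KS Pool.Agent.TH652.Above

variable {N : ℕ}

section main

variable {n : ℕ} (G : SimpleGraph (Fin N)) (K : Finset (Finset (Fin N)))
    (hK : ∀ S : Finset (Fin N), S ∈ K ↔ G.IsClique (S : Set (Fin N))) (h2 : Pool.Agent.Y131.KS.HSph K n)
    (hR : HSph n G)

include hK h2 hR in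
/-- the criterion for a full subcomplex `A` -/
theorem Q_rel {k : ℕ} (hn : n = 2 * k ∨ n = 2 * k + 1) (A B : Set (Fin N)) (κ : Fin N → Fin (k + 1))
    (hκ : ∀ u v, u ∈ B → v ∈ B → G.Adj u v → κ u ≠ κ v)
    (hB : ∀ v, v ∈ A → v ∉ B → (∀ T : Finset (Fin N), v ∈ T → G.IsClique (T : Set (Fin N)) → Good n G T) ∧
      (Odd n → chiS G (G.neighborSet v) = 0)) (A' : Set (Fin N)) (hA' : A' ⊆ A) (i : ℕ) (hi : n < 2 * i) :
    LV (G.induce A') i := by
  classical
  have h0 : G.IsClique ((∅ : Finset (Fin N)) : Set (Fin N)) := by simp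
  have key : ∀ l : ℕ, ∀ A' : Set (Fin N), A' ⊆ A → (A' \ B).ncard = l → LV (G.induce A') i := by
    intro l
    induction l with
    | zero =>
      intro A' hA' hl
      rw [Set.ncard_eq_zero, Set.sdiff_eq_empty] at hl
      exact col_lv (n := n) (k := k) G K hK h2 ∅ h0 (by rw [card_empty]; omega) (by rw [card_empty]; omega) B κ hκ A'
        hl (fun a _ t ht => absurd ht (notMem_empty t)) i (by omega)
    | succ l ih =>
      intro A' hA' hl
      obtain ⟨v, hv⟩ : (A' \ B).Nonempty := by
        rw [← Set.ncard_pos]; omega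
      obtain ⟨hg, hχ⟩ := hB v (hA' hv.1) hv.2
      have hT : G.IsClique (({v} : Finset (Fin N)) : Set (Fin N)) := by simp
      have hall : ∀ T' : Finset (Fin N), {v} ⊆ T' → G.IsClique (T' : Set (Fin N)) → R n G T' := by
        intro T' hT' hc
        exact R_all G K hK h2 hR T' hc (fun T'' h5 h6 => hg T'' (h5 (hT' (mem_singleton_self v))) h6)
      refine lv_add G A' v hv.1 i (ih _ (Set.sdiff_subset.trans hA') ?_) (fun j hj => ?_)
      · have h1 : (A' \ {v}) \ B = (A' \ B) \ {v} := by
          ext x
          simp only [Set.mem_sdiff, Set.mem_singleton_iff]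
          tauto
        have h2 := Set.ncard_sdiff_singleton_add_one hv (Set.toFinite _)
        rw [h1]
        omega
      · have hsub : A' ∩ G.neighborSet v ⊆ lk G {v} := by
          rw [lk_one]
          exact Set.inter_subset_right
        rcases hn with hk | hk
        · exact hall {v} (Subset.refl _) hT _ hsub j (by rw [card_singleton]; omega)
        · have h6 : n = ({v} : Finset (Fin N)).card + 2 * k := by rw [card_singleton]; omega
          have h7 := P_of_R G {v} hT h6 hall
          have h8 := HSph_lk G {v} hT h6 hR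
          have h9 := flat (G.induce (lk G {v})) h7 h8 (by
            rw [chiW_induce, lk_one]
            exact hχ ⟨k, hk⟩) {x | x.1 ∈ A' ∩ G.neighborSet v} j (by omega)
          exact lv_of_induce hsub h9
  exact key _ A' hA' rfl

include hK h2 hR in
/-- Singer's conjecture for the links of the vertices -/
theorem link_singer {k : ℕ} (hn : n = k + 1) (v : Fin N)
    (hg : ∀ T : Finset (Fin N), v ∈ T → G.IsClique (T : Set (Fin N)) → Good n G T) (i : ℕ) (hi : 2 * i ≠ k) :
    LV (G.induce (G.neighborSet v)) i := by
  classical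
  have hT : G.IsClique (({v} : Finset (Fin N)) : Set (Fin N)) := by simp
  have h6 : n = ({v} : Finset (Fin N)).card + k := by rw [card_singleton]; omega
  have h3 : R n G {v} := R_all G K hK h2 hR {v} hT (fun T' h h' => hg T' (h (mem_singleton_self v)) h')
  have h4 := HSph_lk G {v} hT h6 hR
  have h5 := Pool.Agent.Q169.RC.lv_of (singer_of_above h4 (fun j hj => h3 (lk G {v}) (le_refl _) j
    (by rw [card_singleton]; omega) _ _) i hi)
  rw [lk_one] at h5
  exact h5

/-- deleting an independent set of vertices -/
theorem del_indep {V : Type} [Fintype V] (G : SimpleGraph V) (i : ℕ) (h : LV G i) :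
    ∀ I : Finset V, (∀ u ∈ I, ∀ v ∈ I, ¬ G.Adj u v) → (∀ v ∈ I, LV (G.induce (G.neighborSet v)) i) →
      LV (G.induce ((I : Set V)ᶜ)) i := by
  classical
  intro I
  induction I using Finset.induction_on with
  | empty =>
    intro _ _
    rw [Finset.coe_empty, Set.compl_empty, lv_univ]
    exact h
  | insert v I hv ih =>
    intro h1 h3
    have h4 := ih (fun u hu w hw => h1 u (mem_insert_of_mem hu) w (mem_insert_of_mem hw))
      (fun u hu => h3 u (mem_insert_of_mem hu))
    have h5 : (((insert v I : Finset V) : Set V)ᶜ) = (I : Set V)ᶜ \ {v} := by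
      ext x
      simp only [Finset.coe_insert, Set.mem_compl_iff, Set.mem_insert_iff, not_or, Set.mem_sdiff,
        Set.mem_singleton_iff]
      tauto
    rw [h5]
    refine lv_del G _ v (by simpa using hv) i h4 (lv_set ?_ (h3 v (mem_insert_self _ _)))
    ext x
    constructor
    · rintro ⟨-, hx⟩
      exact hx
    · intro hx
      refine ⟨fun hxI => ?_, hx⟩
      exact h1 v (mem_insert_self _ _) x (mem_insert_of_mem (mem_coe.1 hxI)) hx

/-- the Euler characteristic when an independent set of vertices is deleted -/
theorem chi_indep {V : Type} [Fintype V] [DecidableEq V] (G : SimpleGraph V) :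
    ∀ I : Finset V, (∀ u ∈ I, ∀ v ∈ I, ¬ G.Adj u v) →
      chiS G ((I : Set V)ᶜ) = chiW G + (1 / 2) * ∑ v ∈ I, chiS G (G.neighborSet v) := by
  classical
  intro I
  induction I using Finset.induction_on with
  | empty =>
    intro _
    rw [Finset.coe_empty, Set.compl_empty, chiS_univ, sum_empty, mul_zero, add_zero]
  | insert v I hv ih =>
    intro h1
    have h4 := ih (fun u hu w hw => h1 u (mem_insert_of_mem hu) w (mem_insert_of_mem hw))
    have h5 : (I : Set V)ᶜ = insert v (((insert v I : Finset V) : Set V)ᶜ) := by
      ext x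
      simp only [Finset.coe_insert, Set.mem_compl_iff, Set.mem_insert_iff, not_or, Finset.mem_coe]
      constructor
      · intro hx
        by_cases hxv : x = v
        · exact Or.inl hxv
        · exact Or.inr ⟨hxv, hx⟩
      · rintro (rfl | h)
        · exact hv
        · exact h.2
    have h6 : (((insert v I : Finset V) : Set V)ᶜ) ∩ G.neighborSet v = G.neighborSet v := by
      ext x
      constructor
      · rintro ⟨-, hx⟩
        exact hx
      · intro hx
        refine ⟨fun hxI => ?_, hx⟩
        rw [Finset.mem_coe, mem_insert] at hxI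
        rcases hxI with rfl | hxI
        · exact G.loopless.irrefl _ hx
        · exact h1 v (mem_insert_self _ _) x (mem_insert_of_mem hxI) hx
    rw [h5, chiS_add G _ v (by simp), h6] at h4
    rw [sum_insert hv]
    linarith

end main

end Pool.Agent.Q169.RC
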