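import Pool.Agent.Q169.RC.CVDef
import Pool.Agent.Q169.RC.Cls
import Pool.Agent.Q169.RC.VKQ
import Pool.Agent.Q169.RC.Grow

/-!
# Vanishing above the middle for the classes `CV`
-/

set_option autoImplicit false

namespace Pool.Agent.Q169.RC

open Pool.Agent.W907.SG Pool.Agent.W907.SM Pool.Agent.TH652.Above
open Pool.Agent.TH652.Join (join)

theorem PQ_of_CV {b : Bool} {n : ℕ} {V : Type} {G : SimpleGraph V} (h : CV b n G) : PQ b n G := by
  induction h with
  | am G h => exact P_of_AM h
  | aq G h => exact Q_of_AQ h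
  | @vk N k G κ hκ hobs =>
    have hV : Pool.Agent.Y131.KS.VK2 (flagCx G) (2 * k + 1 + 1) := by
      intro Z h1 h2 h3
      exact hobs Z h1 h2 (fun ρ τ a b => h3 ρ τ a (by omega))
    refine vk_Q G k κ hκ (flagCx G) hV (Function.Embedding.refl _) (fun T hT => ?_)
    rw [Finset.map_refl]
    unfold flagCx
    classical
    simpa using hT
  | weak G _ ih => exact Q_of_P G ih
  | @full b n V G A _ ih =>
    cases b
    · exact Q_emb G _ (SimpleGraph.Embedding.induce A) ih
    · exact P_full G A ih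
  | sub G s t hst _ ih => exact P_sub G s t hst ih
  | @join b m n V U G H _ _ ih1 ih2 =>
    cases b
    · exact Q_join G H ih1 ih2
    · exact P_join G H ih1 ih2
  | @succ b n V G _ ih =>
    cases b
    · exact ⟨ih.1, fun A i hi => ih.2 A i (by omega)⟩
    · exact P_succ G ih
  | pred G _ ih => exact ⟨ih.1, fun A i hi => ih.2 A i (by omega)⟩
  | del G s t hst _ _ ih1 ih2 => exact Q_del G s t hst ih1 ih2
  | @glue b n V _ G A B hAB hno _ _ _ ih1 ih2 ih3 =>
    cases b
    · exact Q_glue G A B hAB hno ih1 ih2 ih3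
    · exact P_glue G A B hAB hno ih1 ih2 ih3
  | dim G hm hB => exact Q_dim G hm hB
  | vert G B _ _ ih1 ih2 =>
    exact Q_ext G B ih1 fun v hv A hA i hi =>
      lv_of_induce hA ((ih2 v hv).2 {x | x.1 ∈ A} i (by omega))
  | even G B _ _ ih1 ih2 =>
    exact Q_ext G B ih1 fun v hv A hA i hi =>
      lv_of_induce hA ((ih2 v hv).2 {x | x.1 ∈ A} i (by omega))
  | her G _ _ ih1 ih2 => exact P_her G ih1 ih2
  | flat G _ hS hχ ih => exact Q_flat G ih hS hχ
  | @iso b n V U G H e _ ih =>
    cases b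
    · exact Q_emb G H e.some.symm.toEmbedding ih
    · exact P_iso G H e.some ih

theorem Q_of_CV {b : Bool} {n : ℕ} {V : Type} {G : SimpleGraph V} (h : CV b n G) : Q n G := by
  cases b
  · exact PQ_of_CV h
  · exact Q_of_P G (PQ_of_CV h)

end Pool.Agent.Q169.RC
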