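import Pool.Agent.Q169.RC.Del
import Pool.Agent.Y132.SI.Free

set_option autoImplicit false

/-!
# Finite sets with an action of a right-angled Coxeter group, and Euler characteristics of full subcomplexes
-/

namespace Pool.Agent.Q169.RC

open Pool.Agent.W907.SG Pool.Agent.W907.SM Pool.Agent.W338.SG Pool.Agent.TH652.Above Pool.Agent.Y132.SI
  Pool.Agent.W397.SG Module

/-- finite sets `X` on which `W G` acts (the generator `v` by `a v`) such that the finite special subgroups act
freely, with normalised Betti numbers at most `1/N` in all degrees in which the `ℓ²`-homology of the full subcomplex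
vanishes -/
structure GoodSet {V : Type} [Fintype V] [LinearOrder V] (G : SimpleGraph V) (N : ℕ) {X : Type} [Fintype X]
    (a : V → X → X) : Prop where
  inv : ∀ v x, a v (a v x) = x
  comm : ∀ u v, G.Adj u v → ∀ x, a u (a v x) = a v (a u x)
  sig : ∀ (T : Finset V) (t : V), t ∉ T → G.IsClique ((insert t T : Finset V) : Set V) →
    ∃ σ : X → Bool, (∀ x, σ (a t x) = !(σ x)) ∧ ∀ u ∈ T, ∀ x, σ (a u x) = σ x
  sm : ∀ (A : Set V) (i : ℕ), LV (G.induce A) i → N * beta G (pull ℝ a) A ∅ i ≤ Fintype.card X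

theorem good_exists {V : Type} [Fintype V] [LinearOrder V] (G : SimpleGraph V) (N : ℕ) :
    ∃ E : Finset (W G), (1 : W G) ∉ E ∧ ∀ (X : Type) [Fintype X] (a : V → X → X) (ev : X → W G → X),
      (∀ v x, a v (a v x) = x) → (∀ u v, G.Adj u v → ∀ x, a u (a v x) = a v (a u x)) →
      (∀ x, ev x 1 = x) → (∀ x g h, ev x (g * h) = ev (ev x g) h) →
      (∀ x v, ev x ((cox G).simple v) = a v x) →
      (∀ g ∈ E, ∀ x, ev x g ≠ x) → GoodSet G N a := by
  classical
  have h1 : ∀ (A : Set V) (i : ℕ), ∃ Ei : Finset (W G), (1 : W G) ∉ Ei ∧ (LV (G.induce A) i →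
      ∀ (X : Type) [Fintype X] (a : V → X → X) (ev : X → W G → X),
      (∀ v x, a v (a v x) = x) → (∀ u v, G.Adj u v → ∀ x, a u (a v x) = a v (a u x)) →
      (∀ x, ev x 1 = x) → (∀ x g h, ev x (g * h) = ev (ev x g) h) →
      (∀ x v, ev x ((cox G).simple v) = a v x) →
      (∀ g ∈ Ei, ∀ x, ev x g ≠ x) → N * beta G (pull ℝ a) A ∅ i ≤ Fintype.card X) := by
    intro A i
    by_cases hi : LV (G.induce A) i
    · obtain ⟨Ei, h2, h3⟩ := small_restrict small tr G A i (hi _ _) N
      exact ⟨Ei, h2, fun _ => h3⟩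
    · exact ⟨∅, Finset.notMem_empty _, fun h => absurd h hi⟩
  choose Ef hEf1 hEf2 using h1
  obtain ⟨E0, hE0, hE0'⟩ := exists_tor G
  refine ⟨E0 ∪ (Finset.univ : Finset (Set V)).biUnion fun A => (Finset.range (Fintype.card V + 1)).biUnion (Ef A),
    ?_, ?_⟩
  · rw [Finset.mem_union, Finset.mem_biUnion]
    rintro (h | ⟨A, _, h⟩)
    · exact hE0 h
    · rw [Finset.mem_biUnion] at h
      obtain ⟨i, _, h⟩ := h
      exact hEf1 A i h
  · intro X _ a ev k1 k2 k3 k4 k5 k6
    refine ⟨k1, k2, fun T t ht hc => ?_, fun A i hA => ?_⟩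
    · refine exists_sigma G a ev k3 k4 k5 (fun T hT g hg hg1 x => ?_) T t ht hc
      exact k6 g (Finset.mem_union_left _ (hE0' T hT g hg hg1)) x
    · by_cases hi : i < Fintype.card V + 1
      · refine hEf2 A i hA X a ev k1 k2 k3 k4 k5 fun g hg x => k6 g (Finset.mem_union_right _ ?_) x
        exact Finset.mem_biUnion.2 ⟨A, Finset.mem_univ _, Finset.mem_biUnion.2 ⟨i, Finset.mem_range.2 hi, hg⟩⟩
      · rw [beta_big G _ A ∅ (by omega), mul_zero]
        exact Nat.zero_le _

theorem good_set {V : Type} [Fintype V] [LinearOrder V] (G : SimpleGraph V) (N : ℕ) :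
    ∃ (X : Type) (_ : Fintype X) (_ : Nonempty X) (a : V → X → X), GoodSet G N a := by
  have : Fact (Nat.Prime 3) := ⟨Nat.prime_three⟩
  obtain ⟨E, h1, h2⟩ := good_exists G N
  obtain ⟨Y, _, _, P, ev, e1, e2, e3, e4⟩ := nilp 3 V G E (by decide) h1
  exact ⟨Y, inferInstance, inferInstance, P.a, h2 Y P.a ev P.inv P.comm e1 e2 e3 e4⟩

theorem good_cosets {V : Type} [Fintype V] [LinearOrder V] (G : SimpleGraph V) (N : ℕ) :
    ∃ E : Finset (W G), (1 : W G) ∉ E ∧ ∀ (H : Subgroup (W G)) [Fintype (Quotient (QuotientGroup.rightRel H))],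
      (∀ g ∈ E, ∀ x : W G, x * g * x⁻¹ ∉ H) → GoodSet G N (aa G H) := by
  obtain ⟨E, h1, h2⟩ := good_exists G N
  refine ⟨E, h1, fun H _ hE => ?_⟩
  exact h2 _ (aa G H) (ev G H) (aa_inv G H) (fun u v h x => aa_comm G H u v h x)
    (ev_one G H) (ev_mul G H) (fun _ _ => rfl) (fun g hg x => ev_free G H (fun y => hE g hg y) x)

/-! ### Euler characteristics -/

open Classical in
/-- the Euler characteristic of the special subgroup of the full subcomplex `A` -/
noncomputable def chiS {V : Type} [Fintype V] (G : SimpleGraph V) (A : Set V) : ℚ :=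
  ∑ T : Finset V, if G.IsClique (T : Set V) ∧ (T : Set V) ⊆ A then (-1 / 2 : ℚ) ^ T.card else 0

theorem chiS_univ {V : Type} [Fintype V] (G : SimpleGraph V) : chiS G Set.univ = chiW G := by
  classical
  unfold chiS chiW
  refine Finset.sum_congr rfl fun T _ => ?_
  simp only [Set.subset_univ, and_true]

theorem chiW_induce {V : Type} [Fintype V] (G : SimpleGraph V) (A : Set V) [Fintype A] :
    chiW (G.induce A) = chiS G A := by
  classical
  unfold chiS chiW
  have h1 : ∀ T : Finset ↥A, (G.induce A).IsClique (T : Set ↥A) ↔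
      G.IsClique ((T.map ⟨Subtype.val, Subtype.val_injective⟩ : Finset V) : Set V) := by
    intro T
    constructor
    · intro h a ha b hb hab
      rw [Finset.mem_coe, Finset.mem_map] at ha hb
      obtain ⟨x, hx, rfl⟩ := ha
      obtain ⟨y, hy, rfl⟩ := hb
      exact h hx hy fun e => hab (by rw [e])
    · intro h a ha b hb hab
      have ha' : a.1 ∈ ((T.map ⟨Subtype.val, Subtype.val_injective⟩ : Finset V) : Set V) := by
        rw [Finset.mem_coe, Finset.mem_map]
        exact ⟨a, ha, rfl⟩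
      have hb' : b.1 ∈ ((T.map ⟨Subtype.val, Subtype.val_injective⟩ : Finset V) : Set V) := by
        rw [Finset.mem_coe, Finset.mem_map]
        exact ⟨b, hb, rfl⟩
      exact h ha' hb' (fun e => hab (Subtype.ext e))
  rw [← Finset.sum_subset (Finset.subset_univ ((Finset.univ : Finset (Finset ↥A)).map
    ⟨fun T => T.map ⟨Subtype.val, Subtype.val_injective⟩, Finset.map_injective _⟩))]
  · rw [Finset.sum_map]
    refine Finset.sum_congr rfl fun T _ => ?_
    simp only [Function.Embedding.coeFn_mk, Finset.card_map]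
    by_cases hT : (G.induce A).IsClique (T : Set ↥A)
    · rw [if_pos hT, if_pos ⟨(h1 T).1 hT, by
        intro x hx
        rw [Finset.mem_coe, Finset.mem_map] at hx
        obtain ⟨y, _, rfl⟩ := hx
        exact y.2⟩]
    · rw [if_neg hT, if_neg fun h => hT ((h1 T).2 h.1)]
  · intro T _ hT
    rw [if_neg]
    rintro ⟨h2, h3⟩
    apply hT
    rw [Finset.mem_map]
    refine ⟨T.subtype (fun x => x ∈ A), Finset.mem_univ _, ?_⟩
    simp only [Function.Embedding.coeFn_mk]
    ext x
    simp only [Finset.mem_map, Finset.mem_subtype, Function.Embedding.coeFn_mk, Subtype.exists, exists_and_left,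
      exists_prop, exists_eq_right_right]
    exact ⟨fun h => h.1, fun h => ⟨h, h3 h⟩⟩

/-- the alternating sum of the Betti numbers of a full subcomplex -/
theorem eulA {V X : Type} [Fintype V] [LinearOrder V] [Fintype X] (G : SimpleGraph V) {N : ℕ} {a : V → X → X}
    (h : GoodSet G N a) (A : Set V) :
    ∑ i ∈ Finset.range (Fintype.card V + 1), (-1 : ℚ) ^ i * (beta G (pull ℝ a) A ∅ i : ℚ) =
      Fintype.card X * chiS G A := by
  classical
  have h3 : ∀ i, beta G (pull ℝ a) A ∅ i = beta (G.induce A) (pull ℝ fun u : ↥A => a u.1) Set.univ ∅ i := by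
    intro i
    have h3 := tr ↥A V ℝ (X → ℝ) G (G.induce A) (pull ℝ a) (fun u => (u : V))
      (Subtype.strictMono_coe _) (fun u u' => Iff.rfl) i
    rw [Subtype.range_coe] at h3
    exact h3
  have h4 := beta_sum' (two_ne_zero : (2 : ℝ) ≠ 0) (G.induce A) (fun u : ↥A => a u.1) (fun v x => h.inv _ x)
    (fun u v huv x => h.comm _ _ huv x) (fun T t ht hc => by
      obtain ⟨σ, hσ1, hσ2⟩ := h.sig (T.map ⟨Subtype.val, Subtype.val_injective⟩) t.1 (by
        rw [Finset.mem_map]
        rintro ⟨y, hy, hyt⟩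
        exact ht (by rwa [← Subtype.ext hyt])) (by
        intro x hx y hy hxy
        rw [Finset.coe_insert, Set.mem_insert_iff, Finset.mem_coe, Finset.mem_map] at hx hy
        have hx' : ∃ x' : ↥A, x' ∈ insert t T ∧ x'.1 = x := by
          rcases hx with rfl | ⟨x', hx', rfl⟩
          · exact ⟨t, Finset.mem_insert_self _ _, rfl⟩
          · exact ⟨x', Finset.mem_insert_of_mem hx', rfl⟩
        have hy' : ∃ y' : ↥A, y' ∈ insert t T ∧ y'.1 = y := by
          rcases hy with rfl | ⟨y', hy', rfl⟩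
          · exact ⟨t, Finset.mem_insert_self _ _, rfl⟩
          · exact ⟨y', Finset.mem_insert_of_mem hy', rfl⟩
        obtain ⟨x', hx1, rfl⟩ := hx'
        obtain ⟨y', hy1, rfl⟩ := hy'
        exact hc hx1 hy1 fun e => hxy (by rw [e]))
      exact ⟨σ, hσ1, fun u hu x => hσ2 u.1 (by
        rw [Finset.mem_map]
        exact ⟨u, hu, rfl⟩) x⟩)
  rw [chiW_induce] at h4
  rw [← h4]
  push_cast
  have hle : Fintype.card ↥A ≤ Fintype.card V := Fintype.card_subtype_le _
  rw [← Finset.sum_subset (Finset.range_mono (Nat.succ_le_succ hle))]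
  · exact Finset.sum_congr rfl fun i _ => by rw [h3]
  · intro i _ hi
    rw [Finset.mem_range, not_lt] at hi
    rw [h3, beta_big (G.induce A) _ Set.univ ∅ (by omega), Nat.cast_zero, mul_zero]

end Pool.Agent.Q169.RC
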