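import Pool.Agent.Q169.RC.Loc

set_option autoImplicit false

/-!
# Good simplices
-/

namespace Pool.Agent.Q169.RC

open Finset Pool.Agent.W907.SG Pool.Agent.W907.SM Pool.Agent.W555.KS Pool.Agent.TH652.Above

variable {N : ℕ}

/-- The simplex `T` of the flag complex of `G`, a homology sphere of dimension `n - 1`, is good: either its link is
in the class `AM (n - |T|)` of the starting library, or its link has odd dimension, or its link has even dimension
`2 k` and the vertices `v` of the link for which the right-angled Coxeter group of the link of `T ∪ {v}` has a nonzero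
Euler characteristic can be coloured with `k + 1` colours (adjacent ones differently). -/
def Good (n : ℕ) (G : SimpleGraph (Fin N)) (T : Finset (Fin N)) : Prop :=
  AM (n - T.card) (G.induce (lk G T)) ∨
  ∀ k : ℕ, n = T.card + (2 * k + 1) → ∃ κ : Fin N → Fin (k + 1), ∀ u v, u ∈ lk G T → v ∈ lk G T →
    chiS G (lk G (insert u T)) ≠ 0 → chiS G (lk G (insert v T)) ≠ 0 → G.Adj u v → κ u ≠ κ v

theorem lk_top {n : ℕ} (G : SimpleGraph (Fin N)) (K : Finset (Finset (Fin N)))
    (hK : ∀ S : Finset (Fin N), S ∈ K ↔ G.IsClique (S : Set (Fin N))) (h2 : Pool.Agent.Y131.KS.HSph K n)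
    (T : Finset (Fin N)) (hT : G.IsClique (T : Set (Fin N))) (hn : n = T.card) (a : Fin N) (ha : a ∈ lk G T) :
    False := by
  classical
  have h3 := h2.card_le _ ((hK _).2 (clique_insert hT ha))
  rw [card_insert_of_notMem (notMem_of_lk ha)] at h3
  omega

theorem R_of_good {n : ℕ} (G : SimpleGraph (Fin N)) (K : Finset (Finset (Fin N)))
    (hK : ∀ S : Finset (Fin N), S ∈ K ↔ G.IsClique (S : Set (Fin N))) (h2 : Pool.Agent.Y131.KS.HSph K n)
    (hR : HSph n G) : ∀ (m : ℕ) (T : Finset (Fin N)), n = T.card + m → G.IsClique (T : Set (Fin N)) →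
      (∀ T' : Finset (Fin N), T ⊆ T' → G.IsClique (T' : Set (Fin N)) → Good n G T') → R n G T := by
  classical
  intro m
  induction m using Nat.strong_induction_on with
  | _ m ih =>
    intro T hm hT hg
    have hle : ∀ T' : Finset (Fin N), G.IsClique (T' : Set (Fin N)) → T'.card ≤ n :=
      fun T' h => h2.card_le _ ((hK _).2 h)
    have hsup : ∀ v, v ∈ lk G T → ∀ T' : Finset (Fin N), insert v T ⊆ T' → G.IsClique (T' : Set (Fin N)) →
        R n G T' := by
      intro v hv T' hT' hc
      have h3 := card_le_card hT'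
      rw [card_insert_of_notMem (notMem_of_lk hv)] at h3
      have h4 := hle T' hc
      exact ih (n - T'.card) (by omega) T' (by omega) hc
        (fun T'' h5 h6 => hg T'' ((subset_insert v T).trans (hT'.trans h5)) h6)
    rcases hg T (Subset.refl _) hT with h | h
    · have h3 := P_of_AM h
      intro A hA i hi
      have h4 := (Q_of_P _ h3).2 {x | x.1 ∈ A} i (by omega)
      exact lv_of_induce hA h4
    · rcases Nat.even_or_odd' m with ⟨k, hk | hk⟩
      · refine R_even (k := k) G K hK h2 T hT (by omega) ∅ (fun _ => 0)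
          (fun u v hu => absurd hu (Set.notMem_empty u)) ?_
        intro v hv _
        exact hsup v hv _ (Subset.refl _) (clique_insert hT hv)
      · obtain ⟨κ, hκ⟩ := h k (by omega)
        refine R_odd G K hK h2 hR T hT (by omega)
          {v | v ∈ lk G T ∧ chiS G (lk G (insert v T)) ≠ 0} κ (fun u v hu hv huv => hκ u v hu.1 hv.1 hu.2 hv.2 huv) ?_
        intro v hv hvB
        refine ⟨?_, hsup v hv⟩
        by_contra hne
        exact hvB ⟨hv, hne⟩

/-- the criterion with a coloured set `B` of exceptional vertices -/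
theorem Q_of_good {n k : ℕ} (hn : n = 2 * k ∨ n = 2 * k + 1) (G : SimpleGraph (Fin N))
    (K : Finset (Finset (Fin N)))
    (hK : ∀ S : Finset (Fin N), S ∈ K ↔ G.IsClique (S : Set (Fin N))) (h2 : Pool.Agent.Y131.KS.HSph K n)
    (hR : HSph n G) (B : Set (Fin N)) (κ : Fin N → Fin (k + 1))
    (hκ : ∀ u v, u ∈ B → v ∈ B → G.Adj u v → κ u ≠ κ v)
    (hB : ∀ v, v ∉ B → (∀ T : Finset (Fin N), v ∈ T → G.IsClique (T : Set (Fin N)) → Good n G T) ∧
      (Odd n → chiS G (G.neighborSet v) = 0)) : Q n G := by
  classical
  have hle : ∀ T' : Finset (Fin N), G.IsClique (T' : Set (Fin N)) → T'.card ≤ n :=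
    fun T' h => h2.card_le _ ((hK _).2 h)
  have hall : ∀ v, v ∉ B → ∀ T' : Finset (Fin N), insert v ∅ ⊆ T' → G.IsClique (T' : Set (Fin N)) → R n G T' := by
    intro v hv T' hvT' hT'
    have h4 := hle T' hT'
    exact R_of_good G K hK h2 hR (n - T'.card) T' (by omega) hT'
      (fun T'' h5 h6 => (hB v hv).1 T'' (h5 (hvT' (mem_insert_self _ _))) h6)
  have h0 : G.IsClique ((∅ : Finset (Fin N)) : Set (Fin N)) := by simp
  have hRR : R n G ∅ := by
    rcases hn with hk | hk
    · refine R_even G K hK h2 ∅ h0 (by rw [card_empty]; omega) B κ hκ ?_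
      intro v _ hv
      exact hall v hv _ (Subset.refl _) (clique_insert h0 (fun t ht => absurd ht (notMem_empty t)))
    · refine R_odd G K hK h2 hR ∅ h0 (by rw [card_empty]; omega) B κ hκ ?_
      intro v _ hv
      refine ⟨?_, hall v hv⟩
      have h3 := (hB v hv).2 ⟨k, hk⟩
      have h4 : lk G (insert v ∅) = G.neighborSet v := by
        ext x
        constructor
        · intro hx
          exact (hx v (mem_insert_self _ _)).symm
        · intro hx t ht
          rw [mem_insert] at ht
          rcases ht with rfl | ht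
          · exact (show G.Adj t x from hx).symm
          · exact absurd ht (notMem_empty t)
      rw [h4]
      exact h3
  refine ⟨inferInstance, fun A i hi => hRR A (fun a _ t ht => absurd ht (notMem_empty t)) i ?_⟩
  rw [card_empty]
  exact hi

end Pool.Agent.Q169.RC
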