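import Pool.Agent.Q169.RC.Mono

set_option autoImplicit false

/-!
# Joins as full subcomplexes
-/

namespace Pool.Agent.Q169.RC

open Pool.Agent.W907.SG Pool.Agent.W907.SM Pool.Agent.TH652.Above

/-- the join of `|J|` complexes which are not simplices (and of one arbitrary complex) has no `ℓ²`-homology in the
degrees `i < |J|` -/
theorem join_lv {V ι : Type} [Finite V] [DecidableEq ι] (G : SimpleGraph V) (p : V → ι) :
    ∀ (k : ℕ) (A : Set V) (J : Finset ι), A.ncard = k →
      (∀ u ∈ A, ∀ v ∈ A, p u ≠ p v → (p u ∈ J ∨ p v ∈ J) → G.Adj u v) →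
      (∀ j ∈ J, ∃ s ∈ A, ∃ t ∈ A, p s = j ∧ p t = j ∧ s ≠ t ∧ ¬ G.Adj s t) →
      ∀ i, i < J.card → LV (G.induce A) i := by
  intro k
  induction k using Nat.strong_induction_on with
  | _ k ih =>
    intro A J hk hadj hne i hi
    obtain ⟨j, hj⟩ : J.Nonempty := by
      rw [← Finset.card_pos]; omega
    obtain ⟨s, hs, t, ht, hsj, htj, hst, hna⟩ := hne j hj
    by_cases hex : ∃ v ∈ A, v ≠ s ∧ v ≠ t ∧ ¬ (G.Adj v s ∧ G.Adj v t)
    · obtain ⟨v, hv, hvs, hvt, hvn⟩ := hex
      have hpv : p v = j := by
        by_contra h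
        apply hvn
        exact ⟨hadj v hv s hs (by rw [hsj]; exact h) (Or.inr (by rw [hsj]; exact hj)),
          hadj v hv t ht (by rw [htj]; exact h) (Or.inr (by rw [htj]; exact hj))⟩
      have hc1 : (A \ {v}).ncard < k := by
        have := Set.ncard_sdiff_singleton_add_one hv (Set.toFinite _)
        omega
      have hc2 : (A ∩ G.neighborSet v).ncard < k := by
        refine lt_of_le_of_lt (Set.ncard_le_ncard ?_ (Set.toFinite _)) hc1
        rintro x ⟨hx, hx2⟩
        refine ⟨hx, ?_⟩
        rintro rfl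
        exact G.loopless.irrefl _ hx2
      refine lv_add G A v hv i ?_ (fun i' hi' => ?_)
      · refine ih _ hc1 (A \ {v}) J rfl (fun u hu w hw => hadj u hu.1 w hw.1) (fun j' hj' => ?_) i hi
        by_cases hjj : j' = j
        · subst hjj
          exact ⟨s, ⟨hs, fun h => hvs h.symm⟩, t, ⟨ht, fun h => hvt h.symm⟩, hsj, htj, hst, hna⟩
        · obtain ⟨s', hs', t', ht', h1, h2, h3, h4⟩ := hne j' hj'
          refine ⟨s', ⟨hs', ?_⟩, t', ⟨ht', ?_⟩, h1, h2, h3, h4⟩
          · intro h
            rw [Set.mem_singleton_iff] at h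
            rw [h, hpv] at h1
            exact hjj h1.symm
          · intro h
            rw [Set.mem_singleton_iff] at h
            rw [h, hpv] at h2
            exact hjj h2.symm
      · refine ih _ hc2 (A ∩ G.neighborSet v) (J.erase j) rfl
          (fun u hu w hw h1 h2 => hadj u hu.1 w hw.1 h1 ?_) (fun j' hj' => ?_) i' ?_
        · rcases h2 with h2 | h2
          · exact Or.inl (Finset.mem_of_mem_erase h2)
          · exact Or.inr (Finset.mem_of_mem_erase h2)
        · rw [Finset.mem_erase] at hj'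
          obtain ⟨s', hs', t', ht', h1, h2, h3, h4⟩ := hne j' hj'.2
          refine ⟨s', ⟨hs', ?_⟩, t', ⟨ht', ?_⟩, h1, h2, h3, h4⟩
          · exact hadj v hv s' hs' (by rw [hpv, h1]; exact hj'.1.symm) (Or.inl (by rw [hpv]; exact hj))
          · exact hadj v hv t' ht' (by rw [hpv, h2]; exact hj'.1.symm) (Or.inl (by rw [hpv]; exact hj))
        · rw [Finset.card_erase_of_mem hj]
          omega
    · push Not at hex
      refine lsusp ↥A (G.induce A) ⟨s, hs⟩ ⟨t, ht⟩ i (fun h => hst (congrArg Subtype.val h)) hna ?_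
      intro u h1 h2
      exact hex u.1 u.2 (fun h => h1 (Subtype.ext h)) (fun h => h2 (Subtype.ext h))

/-- adding a vertex -/
theorem chiS_add {V : Type} [Fintype V] (G : SimpleGraph V) (A : Set V) (v : V) (hv : v ∉ A) :
    chiS G (insert v A) = chiS G A - (1 / 2) * chiS G (A ∩ G.neighborSet v) := by
  classical
  have hu : (Finset.univ : Finset (Finset V)) = (insert v (Finset.univ.erase v)).powerset := by
    rw [Finset.insert_erase (Finset.mem_univ v)]
    ext T
    simp
  unfold chiS
  rw [hu, Finset.sum_powerset_insert (Finset.notMem_erase _ _), Finset.sum_powerset_insert (Finset.notMem_erase _ _),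
    Finset.sum_powerset_insert (Finset.notMem_erase _ _), mul_add, Finset.mul_sum, Finset.mul_sum]
  have h2 : ∑ T ∈ (Finset.univ.erase v).powerset,
      (if G.IsClique ((insert v T : Finset V) : Set V) ∧ ((insert v T : Finset V) : Set V) ⊆ A then
        (-1 / 2 : ℚ) ^ (insert v T).card else 0) = 0 := by
    refine Finset.sum_eq_zero fun T _ => if_neg ?_
    rintro ⟨-, h⟩
    exact hv (h (by simp))
  have h3 : ∑ T ∈ (Finset.univ.erase v).powerset, (1 / 2 : ℚ) *
      (if G.IsClique ((insert v T : Finset V) : Set V) ∧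
        ((insert v T : Finset V) : Set V) ⊆ A ∩ G.neighborSet v then
        (-1 / 2 : ℚ) ^ (insert v T).card else 0) = 0 := by
    refine Finset.sum_eq_zero fun T _ => ?_
    rw [if_neg, mul_zero]
    rintro ⟨-, h⟩
    exact hv (h (by simp)).1
  rw [h2, h3, add_zero, add_zero]
  have h4 : ∑ T ∈ (Finset.univ.erase v).powerset,
      (if G.IsClique (T : Set V) ∧ (T : Set V) ⊆ insert v A then (-1 / 2 : ℚ) ^ T.card else 0) =
      ∑ T ∈ (Finset.univ.erase v).powerset,
      (if G.IsClique (T : Set V) ∧ (T : Set V) ⊆ A then (-1 / 2 : ℚ) ^ T.card else 0) := by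
    refine Finset.sum_congr rfl fun T hT => ?_
    rw [Finset.mem_powerset] at hT
    have hvT : v ∉ T := fun h => Finset.notMem_erase _ _ (hT h)
    refine if_congr (and_congr Iff.rfl ⟨fun h x hx => ?_, fun h => h.trans (Set.subset_insert _ _)⟩) rfl rfl
    rcases h hx with h5 | h5
    · exact absurd (h5 ▸ hx) hvT
    · exact h5
  have h5 : ∑ T ∈ (Finset.univ.erase v).powerset,
      (if G.IsClique ((insert v T : Finset V) : Set V) ∧ ((insert v T : Finset V) : Set V) ⊆ insert v A then
        (-1 / 2 : ℚ) ^ (insert v T).card else 0) =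
      - ∑ T ∈ (Finset.univ.erase v).powerset, (1 / 2 : ℚ) *
      (if G.IsClique (T : Set V) ∧ (T : Set V) ⊆ A ∩ G.neighborSet v then (-1 / 2 : ℚ) ^ T.card else 0) := by
    rw [← Finset.sum_neg_distrib]
    refine Finset.sum_congr rfl fun T hT => ?_
    rw [Finset.mem_powerset] at hT
    have hvT : v ∉ T := fun h => Finset.notMem_erase _ _ (hT h)
    by_cases h : G.IsClique (T : Set V) ∧ (T : Set V) ⊆ A ∩ G.neighborSet v
    · rw [if_pos h, if_pos, Finset.card_insert_of_notMem hvT, pow_succ]
      · ring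
      · refine ⟨?_, ?_⟩
        · rw [Finset.coe_insert, SimpleGraph.isClique_insert]
          exact ⟨h.1, fun t ht _ => (h.2 ht).2⟩
        · rw [Finset.coe_insert]
          exact Set.insert_subset_insert (h.2.trans Set.inter_subset_left)
    · rw [if_neg h, if_neg, mul_zero, neg_zero]
      rintro ⟨h1, h2⟩
      apply h
      rw [Finset.coe_insert, SimpleGraph.isClique_insert] at h1
      refine ⟨h1.1, fun x hx => ⟨?_, ?_⟩⟩
      · rcases h2 (by simp [hx] : x ∈ ((insert v T : Finset V) : Set V)) with h6 | h6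
        · exact absurd (h6 ▸ hx) hvT
        · exact h6
      · exact h1.2 x hx (fun e => hvT (e ▸ hx))
  rw [h4, h5]
  ring

theorem chiS_empty {V : Type} [Fintype V] (G : SimpleGraph V) : chiS G ∅ = 1 := by
  classical
  unfold chiS
  rw [Finset.sum_eq_single ∅]
  · simp
  · intro T _ hT
    rw [if_neg]
    rintro ⟨-, h⟩
    apply hT
    rw [Finset.eq_empty_iff_forall_notMem]
    intro x hx
    exact absurd (h hx) (Set.notMem_empty x)
  · intro h
    exact absurd (Finset.mem_univ _) h

/-- the Euler characteristic of a join -/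
theorem chiS_join {V ι : Type} [Fintype V] [DecidableEq ι] (G : SimpleGraph V) (p : V → ι) (J : Finset ι) :
    ∀ (k : ℕ) (A : Set V), A.ncard = k → (∀ u ∈ A, p u ∈ J) →
      (∀ u ∈ A, ∀ v ∈ A, p u ≠ p v → G.Adj u v) →
      chiS G A = ∏ j ∈ J, chiS G (A ∩ {v | p v = j}) := by
  intro k
  induction k using Nat.strong_induction_on with
  | _ k ih =>
    intro A hk hJ hadj
    rcases Set.eq_empty_or_nonempty A with rfl | ⟨v, hv⟩
    · rw [chiS_empty]
      symm
      refine Finset.prod_eq_one fun j _ => ?_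
      rw [Set.empty_inter, chiS_empty]
    · obtain ⟨D, hD⟩ : ∃ D : Set V, D = A \ {v} := ⟨_, rfl⟩
      have hvD : v ∉ D := by rw [hD]; simp
      have hA : A = insert v D := by
        rw [hD, Set.insert_sdiff_singleton, Set.insert_eq_of_mem hv]
      have hDA : D ⊆ A := by rw [hD]; exact Set.sdiff_subset
      have hc1 : D.ncard < k := by
        have := Set.ncard_sdiff_singleton_add_one hv (Set.toFinite _)
        rw [hD]
        omega
      have hc2 : (D ∩ G.neighborSet v).ncard < k :=
        lt_of_le_of_lt (Set.ncard_le_ncard Set.inter_subset_left (Set.toFinite _)) hc1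
      have e1 := ih _ hc1 D rfl (fun u hu => hJ u (hDA hu)) (fun u hu w hw => hadj u (hDA hu) w (hDA hw))
      have e2 := ih _ hc2 (D ∩ G.neighborSet v) rfl (fun u hu => hJ u (hDA hu.1))
        (fun u hu w hw => hadj u (hDA hu.1) w (hDA hw.1))
      have hpv := hJ v hv
      have e3 : ∀ j ∈ J.erase (p v), chiS G (A ∩ {u | p u = j}) = chiS G (D ∩ {u | p u = j}) := by
        intro j hj
        rw [Finset.mem_erase] at hj
        congr 1
        rw [hA]
        ext x
        constructor
        · rintro ⟨h1, h2⟩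
          refine ⟨?_, h2⟩
          rcases h1 with rfl | h1
          · exact absurd h2 hj.1.symm
          · exact h1
        · rintro ⟨h1, h2⟩
          exact ⟨Or.inr h1, h2⟩
      have e4 : ∀ j ∈ J.erase (p v), chiS G (D ∩ G.neighborSet v ∩ {u | p u = j}) =
          chiS G (D ∩ {u | p u = j}) := by
        intro j hj
        rw [Finset.mem_erase] at hj
        congr 1
        ext x
        constructor
        · rintro ⟨⟨h1, -⟩, h2⟩
          exact ⟨h1, h2⟩
        · rintro ⟨h1, h2⟩
          refine ⟨⟨h1, ?_⟩, h2⟩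
          have h3 : p x = j := h2
          exact hadj v hv x (hDA h1) (by rw [h3]; exact hj.1.symm)
      have e5 : chiS G (A ∩ {u | p u = p v}) = chiS G (D ∩ {u | p u = p v}) -
          (1 / 2) * chiS G (D ∩ G.neighborSet v ∩ {u | p u = p v}) := by
        have h1 : A ∩ {u | p u = p v} = insert v (D ∩ {u | p u = p v}) := by
          rw [hA]
          ext x
          constructor
          · rintro ⟨h1, h2⟩
            rcases h1 with rfl | h1
            · exact Or.inl rfl
            · exact Or.inr ⟨h1, h2⟩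
          · rintro (rfl | ⟨h1, h2⟩)
            · exact ⟨Or.inl rfl, rfl⟩
            · exact ⟨Or.inr h1, h2⟩
        rw [h1, chiS_add G _ v (fun h => hvD h.1)]
        congr 3
        ext x
        constructor
        · rintro ⟨⟨h2, h3⟩, h4⟩
          exact ⟨⟨h2, h4⟩, h3⟩
        · rintro ⟨⟨h2, h3⟩, h4⟩
          exact ⟨⟨h2, h4⟩, h3⟩
      rw [← Finset.mul_prod_erase J _ hpv, e5, Finset.prod_congr rfl e3]
      rw [← Finset.mul_prod_erase J _ hpv] at e1 e2
      rw [Finset.prod_congr rfl e4] at e2
      conv_lhs => rw [hA]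
      rw [chiS_add G D v hvD, e1, e2]
      ring

/-- the lower bound for the Euler characteristic given by a full subcomplex which is a join -/
theorem chi_join_bound {m : ℕ} {V : Type} [Fintype V] [LinearOrder V] (S : SimpleGraph V) (hP : P (2 * m) S)
    (hS : HSph (2 * m) S) (A : Set V) (p : V → Fin m)
    (hadj : ∀ u ∈ A, ∀ v ∈ A, p u ≠ p v → S.Adj u v)
    (hne : ∀ j, ∃ s ∈ A, ∃ t ∈ A, p s = j ∧ p t = j ∧ s ≠ t ∧ ¬ S.Adj s t) :
    ∏ j : Fin m, (- chiS S (A ∩ {v | p v = j})) ≤ (-1 : ℚ) ^ m * chiW S := by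
  have h1 := chi_sphere S hP hS A (fun i hi _ => by
    refine join_lv S p _ A Finset.univ rfl (fun u hu v hv h _ => hadj u hu v hv h) (fun j _ => hne j) i ?_
    rw [Finset.card_univ, Fintype.card_fin]
    exact hi)
  rw [chiS_join S p Finset.univ _ A rfl (fun u _ => Finset.mem_univ _) hadj] at h1
  rw [Finset.prod_neg]
  rw [Finset.card_univ, Fintype.card_fin]
  exact h1

end Pool.Agent.Q169.RC
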