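import Pool.Agent.Q169.RC.Good
import Pool.Agent.Q169.RC.JoinB

set_option autoImplicit false

/-!
# Homology spheres all of whose simplices are good
-/

namespace Pool.Agent.Q169.RC

open Finset Pool.Agent.W907.SG Pool.Agent.W907.SM Pool.Agent.W555.KS Pool.Agent.TH652.Above

variable {N : ℕ}

theorem P_of_good {n : ℕ} (G : SimpleGraph (Fin N)) (K : Finset (Finset (Fin N)))
    (hK : ∀ S : Finset (Fin N), S ∈ K ↔ G.IsClique (S : Set (Fin N))) (h2 : Pool.Agent.Y131.KS.HSph K n)
    (hR : HSph n G) (hg : ∀ T : Finset (Fin N), G.IsClique (T : Set (Fin N)) → Good n G T) : P n G := by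
  refine ⟨inferInstance, fun T hT A hA i hi => ?_⟩
  have h3 : T.card ≤ n := h2.card_le _ ((hK _).2 hT)
  refine R_of_good G K hK h2 hR (n - T.card) T (by omega) hT (fun T' _ h => hg T' h) A ?_ i hi
  intro a ha t ht
  exact (hA ha t ht).symm

/-- Singer's conjecture and the sign of the Euler characteristic under the criterion with exceptional vertices -/
theorem sign_of_good {m : ℕ} (G : SimpleGraph (Fin N)) (K : Finset (Finset (Fin N)))
    (hK : ∀ S : Finset (Fin N), S ∈ K ↔ G.IsClique (S : Set (Fin N))) (h2 : Pool.Agent.Y131.KS.HSph K (2 * m))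
    (hR : HSph (2 * m) G) (B : Set (Fin N)) (κ : Fin N → Fin (m + 1))
    (hκ : ∀ u v, u ∈ B → v ∈ B → G.Adj u v → κ u ≠ κ v)
    (hB : ∀ v, v ∉ B → ∀ T : Finset (Fin N), v ∈ T → G.IsClique (T : Set (Fin N)) → Good (2 * m) G T) :
    0 ≤ (-1 : ℚ) ^ m * chiW G := by
  have hQ := Q_of_good (n := 2 * m) (k := m) (Or.inl rfl) G K hK h2 hR B κ hκ
    (fun v hv => ⟨hB v hv, fun ho => absurd ho (Nat.not_odd_iff_even.2 (even_two_mul m))⟩)
  refine chi_sign G fun i hi => ?_
  exact singer_of_above hR (fun j hj => (lv_univ G j).1 (hQ.2 Set.univ j hj) _ _) i (by omega)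

end Pool.Agent.Q169.RC
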