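import Pool.Agent.Q169.RC.Rel
import Pool.Agent.Q169.RC.Good

set_option autoImplicit false

/-!
# Growth of the Betti numbers of right-angled Coxeter groups of homology spheres of even dimension
-/

namespace Pool.Agent.Q169.RC

open Pool.Agent.W907.SG Pool.Agent.W907.SM Pool.Agent.TH652.Above Pool.Agent.W397.SG Pool.Agent.Y132.SI Module
  Pool.Agent.W461.SGN

/-- the Euler characteristic vanishes in odd dimensions -/
theorem chi_odd {m : ℕ} {V : Type} [Fintype V] [LinearOrder V] (G : SimpleGraph V) (hS : HSph (2 * m + 1) G) :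
    chiW G = 0 := by
  classical
  have : Fact (Nat.Prime 3) := ⟨Nat.prime_three⟩
  obtain ⟨E, h1, h2⟩ := good_exists G 0
  obtain ⟨Y, _, _, P, ev, e1, e2, e3, e4⟩ := nilp 3 V G E (by decide) h1
  have hg := h2 Y P.a ev P.inv P.comm e1 e2 e3 e4
  have hY : (0 : ℚ) < Fintype.card Y := by exact_mod_cast Fintype.card_pos
  have h3 := eulA G hg Set.univ
  rw [chiS_univ] at h3
  have hd : ∀ i j : ℕ, i + j = 2 * m + 1 →
      beta G (pull ℝ P.a) Set.univ ∅ i = beta G (pull ℝ P.a) Set.univ ∅ j :=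
    fun i j hij => Pool.Agent.TH652.Dual.duality_sgn hS P.inv P.comm P.sgn_self P.sgn_other hij
  have htop : ∀ i, 2 * m + 1 < i → beta G (pull ℝ P.a) Set.univ ∅ i = 0 := by
    intro i hi
    have hK : KK G (pull ℝ P.a) Set.univ ∅ i = ⊥ := by
      rw [eq_bot_iff]
      intro c hc
      rw [Submodule.mem_bot]
      funext T
      refine (mem_KK.1 hc).1 T ?_
      rintro ⟨hT, -, hTi⟩
      have h5 := Pool.Agent.TH652.Dual.no_big hS hT
      omega
    unfold beta ZZ
    rw [hK, bot_inf_eq, finrank_bot, Nat.zero_sub]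
  have h4 : ∀ K : ℕ, 2 * m + 1 ≤ K → ∑ i ∈ Finset.range (K + 1), (-1 : ℚ) ^ i *
      (beta G (pull ℝ P.a) Set.univ ∅ i : ℚ) =
      ∑ i ∈ Finset.range (2 * m + 1 + 1), (-1 : ℚ) ^ i * (beta G (pull ℝ P.a) Set.univ ∅ i : ℚ) := by
    intro K hK
    symm
    refine Finset.sum_subset (Finset.range_mono (by omega)) fun i _ hi => ?_
    rw [Finset.mem_range, not_lt] at hi
    rw [htop i (by omega), Nat.cast_zero, mul_zero]
  have h5 : ∑ i ∈ Finset.range (2 * m + 1 + 1), (-1 : ℚ) ^ i * (beta G (pull ℝ P.a) Set.univ ∅ i : ℚ) = 0 := by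
    have h6 := Finset.sum_range_reflect (fun i => (-1 : ℚ) ^ i * (beta G (pull ℝ P.a) Set.univ ∅ i : ℚ))
      (2 * m + 1 + 1)
    have h7 : ∑ i ∈ Finset.range (2 * m + 1 + 1), (-1 : ℚ) ^ (2 * m + 1 + 1 - 1 - i) *
        (beta G (pull ℝ P.a) Set.univ ∅ (2 * m + 1 + 1 - 1 - i) : ℚ) =
        - ∑ i ∈ Finset.range (2 * m + 1 + 1), (-1 : ℚ) ^ i * (beta G (pull ℝ P.a) Set.univ ∅ i : ℚ) := by
      rw [← Finset.sum_neg_distrib]
      refine Finset.sum_congr rfl fun i hi => ?_
      rw [Finset.mem_range] at hi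
      rw [hd (2 * m + 1 + 1 - 1 - i) i (by omega)]
      have h8 : (-1 : ℚ) ^ (2 * m + 1 + 1 - 1 - i) = - (-1) ^ i := by
        have h9 : (-1 : ℚ) ^ (2 * m + 1 + 1 - 1 - i) * (-1) ^ i = -1 := by
          rw [← pow_add, show 2 * m + 1 + 1 - 1 - i + i = 2 * m + 1 by omega]
          rw [pow_succ, pow_mul]
          norm_num
        have h10 : (-1 : ℚ) ^ i * (-1) ^ i = 1 := by
          rw [← pow_add, ← two_mul, pow_mul]
          norm_num
        calc (-1 : ℚ) ^ (2 * m + 1 + 1 - 1 - i) = (-1) ^ (2 * m + 1 + 1 - 1 - i) * ((-1) ^ i * (-1) ^ i) := by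
              rw [h10, mul_one]
          _ = ((-1) ^ (2 * m + 1 + 1 - 1 - i) * (-1) ^ i) * (-1) ^ i := by ring
          _ = - (-1) ^ i := by rw [h9]; ring
      rw [h8]
      ring
    rw [h7] at h6
    linarith
  have hcard : 2 * m + 1 ≤ Fintype.card V := by
    by_contra hlt
    push Not at hlt
    have h6 := hS ∅ (by simp) (2 * m + 1)
    rw [if_pos (by simp)] at h6
    rw [beta_big G _ _ ∅ hlt] at h6
    exact absurd h6 (by norm_num)
  rw [h4 _ hcard, h5] at h3
  have h6 : (Fintype.card Y : ℚ) * chiW G = 0 := h3.symm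
  rcases mul_eq_zero.1 h6 with h7 | h7
  · exact absurd h7 hY.ne'
  · exact h7

variable {N : ℕ}

section main

variable {m : ℕ} (G : SimpleGraph (Fin N)) (K : Finset (Finset (Fin N)))
    (hK : ∀ S : Finset (Fin N), S ∈ K ↔ G.IsClique (S : Set (Fin N)))
    (h2 : Pool.Agent.Y131.KS.HSph K (2 * m + 1))
    (hR : HSph (2 * m + 1) G) (B : Set (Fin N)) (κ : Fin N → Fin (m + 1))
    (hκ : ∀ u v, u ∈ B → v ∈ B → G.Adj u v → κ u ≠ κ v)
    (hB : ∀ v, v ∉ B → ∀ T : Finset (Fin N), v ∈ T → G.IsClique (T : Set (Fin N)) → Good (2 * m + 1) G T)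

include hK h2 hR hB in
theorem R_out (v : Fin N) (hv : v ∉ B) (T' : Finset (Fin N)) (hvT : v ∈ T') (hT' : G.IsClique (T' : Set (Fin N))) :
    R (2 * m + 1) G T' := by
  have h4 : T'.card ≤ 2 * m + 1 := h2.card_le _ ((hK _).2 hT')
  exact R_of_good G K hK h2 hR (2 * m + 1 - T'.card) T' (by omega) hT'
    (fun T'' h5 h6 => hB v hv T'' (h5 hvT) h6)

theorem lk_one (v : Fin N) : lk G {v} = G.neighborSet v := by
  ext x
  constructor
  · intro hx
    exact (hx v (by simp)).symm
  · intro hx t ht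
    rw [Finset.mem_singleton] at ht
    rw [ht]
    exact (show G.Adj v x from hx).symm

include hK h2 hR hB in
theorem lk_lv (v : Fin N) (hv : v ∉ B) (A : Set (Fin N)) (hA : A ⊆ G.neighborSet v) (i : ℕ) (hi : m < i) :
    LV (G.induce A) i := by
  refine R_out G K hK h2 hR B hB v hv {v} (Finset.mem_singleton_self v) (by simp) A ?_ i ?_
  · rw [lk_one]; exact hA
  · rw [Finset.card_singleton]; omega

include hK h2 hR hB in
theorem lk_singer (v : Fin N) (hv : v ∉ B) (i : ℕ) (hi : i ≠ m) : LV (G.induce (G.neighborSet v)) i := by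
  classical
  have h3 : HSph (2 * m) (G.induce (lk G {v})) := HSph_lk G {v} (by simp) (by simp; omega) hR
  have h4 : ∀ j, 2 * m < 2 * j → L2Van (G.induce (lk G {v})) j := by
    intro j hj
    refine lk_lv G K hK h2 hR B hB v hv (lk G {v}) ?_ j (by omega) _ _
    rw [lk_one]
  have h5 := lv_of (singer_of_above h3 h4 i (by omega))
  rw [lk_one] at h5
  exact h5

include hK h2 hR hκ hB in
theorem above_B (A : Set (Fin N)) (i : ℕ) (hi : m + 1 < i) : LV (G.induce A) i := by
  classical
  have h0 : G.IsClique ((∅ : Finset (Fin N)) : Set (Fin N)) := by simp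
  have h3 : R (2 * m + 2) G ∅ := by
    refine R_ext G ∅ B (fun A hAB hA i hi => ?_) (fun v _ hvB A hA i hi => ?_)
    · rw [Finset.card_empty] at hi
      exact col_lv G K hK h2 ∅ h0 (by rw [Finset.card_empty]; omega) (by rw [Finset.card_empty]; omega) B κ hκ A hAB
        hA i (by omega)
    · rw [Finset.card_empty] at hi
      refine lk_lv G K hK h2 hR B hB v hvB A ?_ i (by omega)
      have e : (insert v ∅ : Finset (Fin N)) = {v} := rfl
      rw [e, lk_one] at hA
      exact hA
  refine h3 A (fun a _ t ht => absurd ht (Finset.notMem_empty t)) i ?_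
  rw [Finset.card_empty]
  omega

include hK h2 hR hκ hB in
theorem outer_B (i : ℕ) (h1 : i ≠ m) (h1' : i ≠ m + 1) : L2Van G i := by
  rcases Nat.lt_or_ge (m + 1) i with h | h
  · exact (lv_univ G i).1 (above_B G K hK h2 hR B κ hκ hB Set.univ i h) _ _
  · refine Pool.Agent.TH652.Dual.l2_duality (n := 2 * m + 1) hR (i := i) (j := 2 * m + 1 - i) (by omega) ?_
    exact (lv_univ G _).1 (above_B G K hK h2 hR B κ hκ hB Set.univ (2 * m + 1 - i) (by omega)) _ _

open Classical in
/-- half of the sum of the numbers `|χ|` of the links of the vertices outside `B` -/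
noncomputable def half (m : ℕ) (G : SimpleGraph (Fin N)) (B : Set (Fin N)) : ℚ :=
  (1 / 2) * ∑ v ∈ Finset.univ.filter (fun v => v ∉ B), (-1) ^ m * chiS G (G.neighborSet v)

include hK h2 hR hκ hB in
theorem bound_B {X : Type} [Fintype X] {n : ℕ} {a : Fin N → X → X} (h : GoodSet G n a) (i : ℕ)
    (hi : i = m ∨ i = m + 1) :
    (n : ℚ) * beta G (pull ℝ a) Set.univ ∅ i ≤
      n * (half m G B * Fintype.card X) + (2 * N ^ 2 + 3 * N + 3) * Fintype.card X := by
  classical
  have hX : (0 : ℚ) ≤ Fintype.card X := Nat.cast_nonneg _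
  have hN : (0 : ℚ) ≤ N := Nat.cast_nonneg _
  have hn : (0 : ℚ) ≤ n := Nat.cast_nonneg _
  have h0 : G.IsClique ((∅ : Finset (Fin N)) : Set (Fin N)) := by simp
  have hadd := add_bound G h m B (fun v hv => ⟨fun w hw D hD => by
    refine R_out G K hK h2 hR B hB v hv {v, w} (by simp) ?_ D ?_ m ?_
    · rw [Finset.coe_insert, Finset.coe_singleton, SimpleGraph.isClique_insert]
      exact ⟨by simp, fun t ht _ => by rw [Set.mem_singleton_iff] at ht; rw [ht]; exact hw⟩
    · intro x hx t ht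
      rw [Finset.mem_insert, Finset.mem_singleton] at ht
      rcases ht with rfl | rfl
      · exact (show G.Adj t x from (hD hx).1).symm
      · exact (show G.Adj t x from (hD hx).2).symm
    · have hvw : v ≠ w := (show G.Adj v w from hw).ne
      rw [Finset.card_pair hvw]
      omega, fun i hi => lk_singer G K hK h2 hR B hB v hv i (by
        rintro rfl
        exact (Nat.not_odd_iff_even.2 ⟨i, rfl⟩) hi)⟩) (Finset.univ.filter (fun v => v ∉ B)) (fun v hv =>
      (Finset.mem_filter.1 hv).2)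
  have hBu : B ∪ ((Finset.univ.filter (fun v => v ∉ B) : Finset (Fin N)) : Set (Fin N)) = Set.univ := by
    ext x
    simp only [Set.mem_union, Finset.coe_filter, Finset.mem_univ, true_and, Set.mem_ofPred_eq, Set.mem_univ, iff_true]
    exact em _
  rw [hBu] at hadd
  have hBm : (n : ℚ) * beta G (pull ℝ a) B ∅ (m + 1) ≤ Fintype.card X := by
    exact_mod_cast h.sm B (m + 1) (col_lv G K hK h2 ∅ h0 (by rw [Finset.card_empty]; omega)
      (by rw [Finset.card_empty]; omega) B κ hκ B (le_refl _)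
      (fun a _ t ht => absurd ht (Finset.notMem_empty t)) (m + 1) (by omega))
  rw [Finset.sum_add_distrib, Finset.sum_const, nsmul_eq_mul, Fintype.card_fin] at hadd
  have hcard : ((Finset.univ.filter (fun v => v ∉ B) : Finset (Fin N)).card : ℚ) ≤ N := by
    have := Finset.card_le_univ (Finset.univ.filter (fun v => v ∉ B) : Finset (Fin N))
    rw [Fintype.card_fin] at this
    exact_mod_cast this
  have hsum : ∑ v ∈ Finset.univ.filter (fun v => v ∉ B),
      (n : ℚ) * ((-1) ^ m * (Fintype.card X / 2 * chiS G (G.neighborSet v))) =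
      n * (half m G B * Fintype.card X) := by
    unfold half
    rw [Finset.mul_sum, Finset.sum_mul, Finset.mul_sum]
    refine Finset.sum_congr rfl fun v _ => ?_
    ring
  rw [hsum] at hadd
  have hrest : ((Finset.univ.filter (fun v => v ∉ B) : Finset (Fin N)).card : ℚ) *
      ((2 * N + 1) * Fintype.card X) ≤ N * ((2 * N + 1) * Fintype.card X) :=
    mul_le_mul_of_nonneg_right hcard (by positivity)
  have htop : (n : ℚ) * beta G (pull ℝ a) Set.univ ∅ (m + 1) ≤
      n * (half m G B * Fintype.card X) + (2 * N ^ 2 + N + 1) * Fintype.card X := by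
    have e : (2 * (N : ℚ) ^ 2 + N + 1) * Fintype.card X =
        Fintype.card X + N * ((2 * N + 1) * Fintype.card X) := by ring
    rw [e]
    linarith
  rcases hi with hi | hi
  · rw [hi]
    -- the Euler characteristic
    have h5 := eulA G h Set.univ
    rw [chiS_univ, chi_odd G hR, mul_zero, Fintype.card_fin] at h5
    have hb : ∀ i, (0 : ℚ) ≤ n * (beta G (pull ℝ a) Set.univ ∅ i : ℚ) := fun i => by positivity
    have h6 : ∀ i ∈ Finset.range (N + 1),
        ((if i = m then (n : ℚ) * (beta G (pull ℝ a) Set.univ ∅ m : ℚ) else 0) -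
          if i = m + 1 then (n : ℚ) * (beta G (pull ℝ a) Set.univ ∅ (m + 1) : ℚ) else 0) ≤
        (n : ℚ) * ((-1) ^ m * ((-1 : ℚ) ^ i * (beta G (pull ℝ a) Set.univ ∅ i : ℚ))) + Fintype.card X := by
      intro i _
      have h7 : (n : ℚ) * ((-1) ^ m * ((-1 : ℚ) ^ i * (beta G (pull ℝ a) Set.univ ∅ i : ℚ))) =
          (-1 : ℚ) ^ (i + m) * (n * (beta G (pull ℝ a) Set.univ ∅ i : ℚ)) := by
        rw [pow_add]; ring
      rw [h7]
      by_cases him : i = m
      · subst him
        rw [if_pos rfl, if_neg (by omega), Even.neg_one_pow ⟨i, rfl⟩, one_mul]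
        linarith
      · rw [if_neg him]
        by_cases him' : i = m + 1
        · subst him'
          rw [if_pos rfl, Odd.neg_one_pow ⟨m, by ring⟩]
          linarith
        · rw [if_neg him']
          have h8 : (n : ℚ) * (beta G (pull ℝ a) Set.univ ∅ i : ℚ) ≤ Fintype.card X := by
            exact_mod_cast h.sm Set.univ i ((lv_univ G i).2 (lv_of
              (outer_B G K hK h2 hR B κ hκ hB i him him')))
          have h9 := hb i
          rcases neg_one_pow_eq_or ℚ (i + m) with h10 | h10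
          · rw [h10]; linarith
          · rw [h10]; linarith
    have h11 := Finset.sum_le_sum h6
    rw [Finset.sum_sub_distrib, Finset.sum_add_distrib, ← Finset.mul_sum, ← Finset.mul_sum, h5,
      Finset.sum_ite_eq', Finset.sum_ite_eq', Finset.sum_const, Finset.card_range, nsmul_eq_mul, mul_zero, mul_zero,
      zero_add] at h11
    push_cast at h11
    have h12 : (if m ∈ Finset.range (N + 1) then (n : ℚ) * (beta G (pull ℝ a) Set.univ ∅ m : ℚ) else 0) =
        n * (beta G (pull ℝ a) Set.univ ∅ m : ℚ) := by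
      split_ifs with hm
      · rfl
      · rw [Finset.mem_range, not_lt] at hm
        rw [beta_big G _ Set.univ ∅ (by rw [Fintype.card_fin]; omega), Nat.cast_zero, mul_zero]
    have h13 : (if m + 1 ∈ Finset.range (N + 1) then (n : ℚ) * (beta G (pull ℝ a) Set.univ ∅ (m + 1) : ℚ) else 0) ≤
        n * (beta G (pull ℝ a) Set.univ ∅ (m + 1) : ℚ) := by
      split_ifs
      · exact le_refl _
      · exact hb _
    rw [h12] at h11
    have e : (2 * (N : ℚ) ^ 2 + 3 * N + 3) * Fintype.card X =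
        (2 * N ^ 2 + N + 1) * Fintype.card X + (N + 1) * Fintype.card X + (N + 1) * Fintype.card X := by ring
    have h14 : (0 : ℚ) ≤ (N + 1) * Fintype.card X := by positivity
    rw [e]
    linarith
  · rw [hi]
    have e : (2 * (N : ℚ) ^ 2 + 3 * N + 3) * Fintype.card X =
        (2 * N ^ 2 + N + 1) * Fintype.card X + (2 * N + 2) * Fintype.card X := by ring
    have h14 : (0 : ℚ) ≤ (2 * N + 2) * Fintype.card X := by positivity
    rw [e]
    linarith

include hK h2 hR hκ hB in
theorem growth_B (ε : ℝ) (hε : 0 < ε) :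
    ∃ E : Finset (W G), (1 : W G) ∉ E ∧ ∀ H : Subgroup (W G), H.FiniteIndex →
      (∀ g ∈ E, ∀ x : W G, x * g * x⁻¹ ∉ H) → ∀ i : ℕ,
        (i ≠ m → i ≠ m + 1 → (finrank ℝ (HInv G H i) : ℝ) ≤ ε * H.index) ∧
        (i = m ∨ i = m + 1 → (finrank ℝ (HInv G H i) : ℝ) ≤ ((half m G B : ℝ) + ε) * H.index) := by
  classical
  obtain ⟨C, hC⟩ : ∃ C : ℝ, C = 2 * (N : ℝ) ^ 2 + 3 * N + 3 := ⟨_, rfl⟩
  have hC1 : 1 ≤ C := by
    rw [hC]
    have : (0 : ℝ) ≤ N := Nat.cast_nonneg _
    nlinarith
  obtain ⟨n, hn⟩ := exists_nat_gt (C / ε)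
  have hn1 : C < n * ε := (div_lt_iff₀ hε).1 hn
  have hn0 : (0 : ℝ) < n := lt_of_le_of_lt (by positivity) hn
  obtain ⟨E, hE1, hE2⟩ := good_cosets G n
  refine ⟨E, hE1, fun H hfin hE i => ?_⟩
  have _ : Finite (Quotient (QuotientGroup.rightRel H)) :=
    Finite.of_equiv _ (QuotientGroup.quotientRightRelEquivQuotientLeftRel H).symm
  let _ : Fintype (Quotient (QuotientGroup.rightRel H)) := Fintype.ofFinite _
  have hcard : (Fintype.card (Quotient (QuotientGroup.rightRel H)) : ℝ) = H.index := by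
    rw [← Nat.card_eq_fintype_card, Nat.card_congr (QuotientGroup.quotientRightRelEquivQuotientLeftRel H)]
    rfl
  have hidx : (0 : ℝ) ≤ H.index := Nat.cast_nonneg _
  have hg := hE2 H hE
  rw [finrank_HInv]
  have hb : (0 : ℝ) ≤ (beta G (pull ℝ (aa G H)) Set.univ ∅ i : ℝ) := Nat.cast_nonneg _
  refine ⟨fun hi hi' => ?_, fun hi => ?_⟩
  · have h3 := hg.sm Set.univ i ((lv_univ G i).2 (lv_of (outer_B G K hK h2 hR B κ hκ hB i hi hi')))
    have h4 : (n : ℝ) * (beta G (pull ℝ (aa G H)) Set.univ ∅ i : ℝ) ≤ H.index := by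
      rw [← hcard]
      exact_mod_cast h3
    have h5 : (beta G (pull ℝ (aa G H)) Set.univ ∅ i : ℝ) ≤
        n * ε * (beta G (pull ℝ (aa G H)) Set.univ ∅ i : ℝ) := by
      have h6 : 1 ≤ n * ε := by linarith
      nlinarith
    nlinarith
  · have h3 := bound_B G K hK h2 hR B κ hκ hB hg i hi
    have h4 : (n : ℝ) * (beta G (pull ℝ (aa G H)) Set.univ ∅ i : ℝ) ≤
        n * ((half m G B : ℝ) * H.index) + C * H.index := by
      rw [hC, ← hcard]
      exact_mod_cast h3
    have h5 : (n : ℝ) * (beta G (pull ℝ (aa G H)) Set.univ ∅ i : ℝ) ≤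
        n * (((half m G B : ℝ) + ε) * H.index) := by
      have h6 : C * H.index ≤ n * ε * H.index := mul_le_mul_of_nonneg_right hn1.le hidx
      nlinarith
    exact le_of_mul_le_mul_left h5 hn0

end main

end Pool.Agent.Q169.RC
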