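import Pool.Agent.Q169.RC.VKQ
import Pool.Agent.Q169.RC.Fam
import Pool.Agent.Y131.KS.Cone

set_option autoImplicit false

/-!
# Local criteria for the vanishing of the `ℓ²`-homology above the middle
-/

namespace Pool.Agent.Q169.RC

open Finset Pool.Agent.W907.SG Pool.Agent.W907.SM Pool.Agent.W555.KS Pool.Agent.TH652.Above
open Pool.Agent.Y131.KS (VK2 vk2_mono vk_of_vk2 vk2_of_sphere)

/-- the obstruction in the next degree -/
theorem vk2_succ {n D : ℕ} {L : Finset (Finset (Fin n))} (hL : IsCx L) (h : VK2 L D) : VK2 L (D + 1) := by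
  refine vk2_mono (f := Fin.castSuccEmb) (fun a b hab => ?_) (fun σ hσ => ?_)
    (Pool.Agent.Y131.KS.cone2 hL h)
  · exact hab
  · exact Pool.Agent.Y131.KS.mem_cone.2 hσ

/-- the links of simplices in homology spheres -/
theorem sph_lk {N : ℕ} (T : Finset (Fin N)) : ∀ (K : Finset (Finset (Fin N))) (d : ℕ),
    Pool.Agent.Y131.KS.HSph K d → T ∈ K →
    Pool.Agent.Y131.KS.HSph (Pool.Agent.Y131.KS.lk K T) (d - T.card) := by
  induction T using Finset.induction_on with
  | empty =>
    intro K d h _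
    rw [Pool.Agent.Y131.KS.lk_empty, card_empty, Nat.sub_zero]
    exact h
  | insert w T hw ih =>
    intro K d h hT
    have h1 : ({w} : Finset (Fin N)) ∈ K := h.cx.2 _ hT _ (by simp)
    have h2 := Pool.Agent.Y131.KS.HSph.lk h h1
    have h3 : T ∈ Pool.Agent.Y131.KS.lk K {w} := by
      rw [Pool.Agent.Y131.KS.mem_lk, disjoint_singleton_right]
      refine ⟨hw, ?_⟩
      rw [union_comm, ← insert_eq]
      exact hT
    have h4 := ih _ _ h2 h3
    rw [Pool.Agent.Y131.KS.lk_lk hw] at h4
    rw [card_insert_of_notMem hw, show d - (T.card + 1) = d - 1 - T.card by omega]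
    exact h4

/-- `ℓ²`-vanishing above the middle for the full subcomplexes of the link of the simplex `T` -/
def R (n : ℕ) {V : Type} (G : SimpleGraph V) (T : Finset V) : Prop :=
  ∀ A : Set V, A ⊆ lk G T → ∀ i : ℕ, n < 2 * i + T.card → LV (G.induce A) i

theorem mem_lk' {V : Type} {G : SimpleGraph V} {T : Finset V} {a : V} : a ∈ lk G T ↔ ∀ t ∈ T, G.Adj a t := Iff.rfl

theorem clique_insert {V : Type} [DecidableEq V] {G : SimpleGraph V} {T : Finset V} {v : V}
    (hT : G.IsClique (T : Set V)) (hv : v ∈ lk G T) : G.IsClique ((insert v T : Finset V) : Set V) := by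
  rw [coe_insert, SimpleGraph.isClique_insert]
  exact ⟨hT, fun t ht _ => hv t ht⟩

theorem notMem_of_lk {V : Type} {G : SimpleGraph V} {T : Finset V} {v : V} (hv : v ∈ lk G T) : v ∉ T :=
  fun h => (hv v h).ne rfl

theorem lk_val {V : Type} [DecidableEq V] (G : SimpleGraph V) (T : Finset V) (S : Finset ↥(lk G T)) :
    Subtype.val '' (lk (G.induce (lk G T)) S) = lk G (T ∪ S.map ⟨Subtype.val, Subtype.val_injective⟩) := by
  ext a
  constructor
  · rintro ⟨x, hx, rfl⟩ t ht
    rw [mem_union, mem_map] at ht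
    rcases ht with ht | ⟨y, hy, rfl⟩
    · exact x.2 t ht
    · exact hx y hy
  · intro h
    have h1 : a ∈ lk G T := fun t ht => h t (mem_union_left _ ht)
    refine ⟨⟨a, h1⟩, fun y hy => ?_, rfl⟩
    exact h y.1 (mem_union_right _ (mem_map.2 ⟨y, hy, rfl⟩))

theorem clique_val {V : Type} [DecidableEq V] {G : SimpleGraph V} {T : Finset V} (hT : G.IsClique (T : Set V))
    (S : Finset ↥(lk G T)) (hS : (G.induce (lk G T)).IsClique (S : Set ↥(lk G T))) :
    G.IsClique ((T ∪ S.map ⟨Subtype.val, Subtype.val_injective⟩ : Finset V) : Set V) := by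
  intro a ha b hb hab
  rw [mem_coe, mem_union, mem_map] at ha hb
  rcases ha with ha | ⟨x, hx, rfl⟩ <;> rcases hb with hb | ⟨y, hy, rfl⟩
  · exact hT ha hb hab
  · exact (y.2 a ha).symm
  · exact x.2 b hb
  · exact hS hx hy fun e => hab (by rw [e])

theorem card_val {V : Type} [DecidableEq V] {G : SimpleGraph V} {T : Finset V}
    (S : Finset ↥(lk G T)) :
    (T ∪ S.map ⟨Subtype.val, Subtype.val_injective⟩ : Finset V).card = T.card + S.card := by
  rw [card_union_of_disjoint, card_map]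
  rw [disjoint_right]
  intro a ha haT
  rw [mem_map] at ha
  obtain ⟨x, _, rfl⟩ := ha
  exact notMem_of_lk x.2 haT

theorem P_of_R {n k : ℕ} {V : Type} [Finite V] (G : SimpleGraph V) (T : Finset V) (hT : G.IsClique (T : Set V))
    (hk : n = T.card + k) (h : ∀ T' : Finset V, T ⊆ T' → G.IsClique (T' : Set V) → R n G T') :
    P k (G.induce (lk G T)) := by
  classical
  refine ⟨inferInstance, fun S hS A hA i hi => ?_⟩
  rw [lv_sub]
  refine h (T ∪ S.map ⟨Subtype.val, Subtype.val_injective⟩) subset_union_left (clique_val hT S hS) _ ?_ i ?_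
  · rw [← lk_val]
    refine Set.image_mono fun x hx u hu => ?_
    exact (hA hx u hu).symm
  · rw [card_val]
    omega

theorem HSph_lk {n k : ℕ} {V : Type} [Fintype V] [LinearOrder V] (G : SimpleGraph V) (T : Finset V)
    [Fintype ↥(lk G T)] (hT : G.IsClique (T : Set V)) (hk : n = T.card + k) (h : HSph n G) :
    HSph k (G.induce (lk G T)) := by
  classical
  intro S hS i
  have h1 := h _ (clique_val hT S hS) i
  have h2 := tr ↥(lk (G.induce (lk G T)) S) ↥(lk G T) ℝ ℝ (G.induce (lk G T))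
    ((G.induce (lk G T)).induce (lk (G.induce (lk G T)) S)) (fun _ => (- LinearMap.id : ℝ →ₗ[ℝ] ℝ))
    (fun u => (u : ↥(lk G T))) (Subtype.strictMono_coe _) (fun u u' => Iff.rfl) i
  have h3 := tr ↥(lk (G.induce (lk G T)) S) V ℝ ℝ G
    ((G.induce (lk G T)).induce (lk (G.induce (lk G T)) S)) (fun _ => (- LinearMap.id : ℝ →ₗ[ℝ] ℝ))
    (fun u => ((u : ↥(lk G T)) : V)) (fun a b hab => hab) (fun u u' => Iff.rfl) i
  rw [Subtype.range_coe] at h2
  have h4 : Set.range (fun u : ↥(lk (G.induce (lk G T)) S) => ((u : ↥(lk G T)) : V)) =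
      lk G (T ∪ S.map ⟨Subtype.val, Subtype.val_injective⟩) := by
    rw [← lk_val]
    ext x
    simp only [Set.mem_range, Set.mem_image, Subtype.exists]
    constructor
    · rintro ⟨a, ha, hb, rfl⟩
      exact ⟨a, ha, hb, rfl⟩
    · rintro ⟨a, ha, hb, rfl⟩
      exact ⟨a, ha, hb, rfl⟩
  rw [h4] at h3
  rw [h2, ← h3, h1, card_val]
  refine if_congr ?_ rfl rfl
  omega

theorem lk_insert_sub {V : Type} [DecidableEq V] {G : SimpleGraph V} {T : Finset V} {v : V} {A : Set V}
    (hA : A ⊆ lk G T) : A ∩ G.neighborSet v ⊆ lk G (insert v T) := by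
  rintro x ⟨h1, h2⟩ t ht
  rw [mem_insert] at ht
  rcases ht with rfl | ht
  · exact (show G.Adj t x from h2).symm
  · exact hA h1 t ht

/-- from a subset `B` of the link to the link -/
theorem R_ext {n : ℕ} {V : Type} [Finite V] [DecidableEq V] (G : SimpleGraph V) (T : Finset V) (B : Set V)
    (hB : ∀ A : Set V, A ⊆ B → A ⊆ lk G T → ∀ i : ℕ, n < 2 * i + T.card → LV (G.induce A) i)
    (h : ∀ v, v ∈ lk G T → v ∉ B → ∀ A : Set V, A ⊆ lk G (insert v T) → ∀ i : ℕ, n < 2 * (i + 1) + T.card →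
      LV (G.induce A) i) : R n G T := by
  intro A hA i hi
  have key : ∀ k : ℕ, ∀ A : Set V, A ⊆ lk G T → (A \ B).ncard = k → LV (G.induce A) i := by
    intro k
    induction k with
    | zero =>
      intro A hA hk
      rw [Set.ncard_eq_zero, Set.sdiff_eq_empty] at hk
      exact hB A hk hA i hi
    | succ k ih =>
      intro A hA hk
      obtain ⟨v, hv⟩ : (A \ B).Nonempty := by
        rw [← Set.ncard_pos]; omega
      refine lv_add G A v hv.1 i (ih _ (Set.sdiff_subset.trans hA) ?_) (fun j hj => ?_)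
      · have h1 : (A \ {v}) \ B = (A \ B) \ {v} := by
          ext x
          simp only [Set.mem_sdiff, Set.mem_singleton_iff]
          tauto
        have h2 := Set.ncard_sdiff_singleton_add_one hv (Set.toFinite _)
        rw [h1]
        omega
      · exact h v (hA hv.1) hv.2 _ (lk_insert_sub hA) j (by omega)
  exact key _ A hA rfl

variable {N : ℕ}

/-- coloured subcomplexes of links in mod `2` homology spheres -/
theorem col_lv {n k : ℕ} (G : SimpleGraph (Fin N)) (K : Finset (Finset (Fin N)))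
    (hK : ∀ S : Finset (Fin N), S ∈ K ↔ G.IsClique (S : Set (Fin N))) (h2 : Pool.Agent.Y131.KS.HSph K n)
    (T : Finset (Fin N)) (hT : G.IsClique (T : Set (Fin N))) (hn : n ≤ T.card + (2 * k + 1))
    (hn' : T.card + 2 * k ≤ n) (B : Set (Fin N)) (κ : Fin N → Fin (k + 1))
    (hκ : ∀ u v, u ∈ B → v ∈ B → G.Adj u v → κ u ≠ κ v) (A : Set (Fin N)) (hAB : A ⊆ B) (hA : A ⊆ lk G T)
    (i : ℕ) (hi : k < i) : LV (G.induce A) i := by
  classical
  have h3 := sph_lk T K n h2 ((hK T).2 hT)
  have h4 : VK2 (Pool.Agent.Y131.KS.lk K T) (2 * k + 1 + 1) := by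
    have h5 := vk2_of_sphere (L := Pool.Agent.Y131.KS.lk K T) h3 (Function.Embedding.refl _) (fun σ hσ => by
      rw [Finset.map_refl]; exact hσ)
    rcases Nat.eq_or_lt_of_le hn with h6 | h6
    · rw [show n - T.card + 1 = 2 * k + 1 + 1 by omega] at h5
      exact h5
    · rw [show n - T.card + 1 = 2 * k + 1 by omega] at h5
      exact vk2_succ h3.cx h5
  have h5 : Q (2 * k + 1) (G.induce A) := by
    refine vk_Q (G.induce A) k (fun a => κ a.1) (fun u v huv => hκ _ _ (hAB u.2) (hAB v.2) huv)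
      (Pool.Agent.Y131.KS.lk K T) h4 ⟨Subtype.val, Subtype.val_injective⟩ (fun S hS => ?_)
    rw [Pool.Agent.Y131.KS.mem_lk]
    refine ⟨?_, (hK _).2 ?_⟩
    · rw [disjoint_left]
      intro a ha haT
      rw [mem_map] at ha
      obtain ⟨x, _, rfl⟩ := ha
      exact notMem_of_lk (hA x.2) haT
    · intro a ha b hb hab
      rw [mem_coe, mem_union, mem_map] at ha hb
      rcases ha with ⟨x, hx, rfl⟩ | ha <;> rcases hb with ⟨y, hy, rfl⟩ | hb
      · exact hS hx hy fun e => hab (by rw [e])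
      · exact hA x.2 b hb
      · exact (hA y.2 a ha).symm
      · exact hT ha hb hab
  exact (lv_univ _ i).1 (h5.2 Set.univ i (by omega))

/-- the rule for links of even dimension -/
theorem R_odd {n k : ℕ} (G : SimpleGraph (Fin N)) (K : Finset (Finset (Fin N)))
    (hK : ∀ S : Finset (Fin N), S ∈ K ↔ G.IsClique (S : Set (Fin N))) (h2 : Pool.Agent.Y131.KS.HSph K n)
    (hR : HSph n G)
    (T : Finset (Fin N)) (hT : G.IsClique (T : Set (Fin N))) (hn : n = T.card + (2 * k + 1))
    (B : Set (Fin N)) (κ : Fin N → Fin (k + 1))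
    (hκ : ∀ u v, u ∈ B → v ∈ B → G.Adj u v → κ u ≠ κ v)
    (hv : ∀ v, v ∈ lk G T → v ∉ B → chiS G (lk G (insert v T)) = 0 ∧
      ∀ T' : Finset (Fin N), insert v T ⊆ T' → G.IsClique (T' : Set (Fin N)) → R n G T') : R n G T := by
  classical
  refine R_ext G T B (fun A hAB hA i hi => ?_) (fun v hvT hvB A hA i hi => ?_)
  · exact col_lv G K hK h2 T hT (by omega) (by omega) B κ hκ A hAB hA i (by omega)
  · obtain ⟨h3, h4⟩ := hv v hvT hvB
    have h5 := clique_insert hT hvT
    have h6 : n = (insert v T).card + 2 * k := by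
      rw [card_insert_of_notMem (notMem_of_lk hvT)]; omega
    have h7 := P_of_R G (insert v T) h5 h6 h4
    have h8 := HSph_lk G (insert v T) h5 h6 hR
    refine lv_of_induce hA (flat (G.induce (lk G (insert v T))) h7 h8 ?_ {x | x.1 ∈ A} i (by omega))
    rw [chiW_induce]
    exact h3

/-- the rule for links of odd dimension -/
theorem R_even {n k : ℕ} (G : SimpleGraph (Fin N)) (K : Finset (Finset (Fin N)))
    (hK : ∀ S : Finset (Fin N), S ∈ K ↔ G.IsClique (S : Set (Fin N))) (h2 : Pool.Agent.Y131.KS.HSph K n)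
    (T : Finset (Fin N)) (hT : G.IsClique (T : Set (Fin N))) (hn : n = T.card + 2 * k)
    (B : Set (Fin N)) (κ : Fin N → Fin (k + 1))
    (hκ : ∀ u v, u ∈ B → v ∈ B → G.Adj u v → κ u ≠ κ v)
    (hv : ∀ v, v ∈ lk G T → v ∉ B → R n G (insert v T)) : R n G T := by
  classical
  refine R_ext G T B (fun A hAB hA i hi => ?_) (fun v hvT hvB A hA i hi => ?_)
  · exact col_lv G K hK h2 T hT (by omega) (by omega) B κ hκ A hAB hA i (by omega)
  · refine hv v hvT hvB A hA i ?_
    rw [card_insert_of_notMem (notMem_of_lk hvT)]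
    omega

end Pool.Agent.Q169.RC
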