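import Pool.Agent.Q169.RC.Fam
import Pool.Agent.Q169.RC.Flat

set_option autoImplicit false

/-!
# Monotonicity of the middle `ℓ²`-Betti number, and comparison of Euler characteristics
-/

namespace Pool.Agent.Q169.RC

open Pool.Agent.W907.SG Pool.Agent.W907.SM Pool.Agent.TH652.Above Pool.Agent.W397.SG

/-- monotonicity at the finite level -/
theorem mono_fin {V X : Type} [Fintype V] [LinearOrder V] [Fintype X] (G : SimpleGraph V) {N : ℕ} {a : V → X → X}
    (h : GoodSet G N a) (m : ℕ) (B : Set V)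
    (hL : ∀ v ∈ B, ∀ D : Set V, D ⊆ B ∩ G.neighborSet v → LV (G.induce D) m) :
    ∀ (k : ℕ) (A : Set V), A ⊆ B → (B \ A).ncard = k →
      N * beta G (pull ℝ a) A ∅ m ≤ N * beta G (pull ℝ a) B ∅ m + k * Fintype.card X := by
  intro k
  induction k with
  | zero =>
    intro A hA hk
    rw [Set.ncard_eq_zero, Set.sdiff_eq_empty] at hk
    rw [Set.Subset.antisymm hA hk]
    omega
  | succ k ih =>
    intro A hA hk
    obtain ⟨v, hv⟩ : (B \ A).Nonempty := by
      rw [← Set.ncard_pos]; omega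
    have h1 := vdel V ℝ (X → ℝ) G (pull ℝ a) A ∅ v hv.2 m
    have e5 : (insert v (∅ : Set V)) = {v} := by simp
    rw [e5] at h1
    have h2 := eig_le a h.inv h.comm (A ∩ G.neighborSet v) v Set.inter_subset_right m
    have h3 := h.sm (A ∩ G.neighborSet v) m (hL v hv.1 _ (Set.inter_subset_inter_left _ hA))
    have h4 := ih (insert v A) (Set.insert_subset hv.1 hA) (by
      have h4 : B \ insert v A = (B \ A) \ {v} := by
        ext x
        simp only [Set.mem_sdiff, Set.mem_insert_iff, not_or, Set.mem_singleton_iff]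
        tauto
      have h5 := Set.ncard_sdiff_singleton_add_one hv (Set.toFinite _)
      rw [h4]
      omega)
    have h5 : N * beta G (pull ℝ a) A ∅ m ≤
        N * beta G (pull ℝ a) (insert v A) ∅ m + N * beta G (pull ℝ a) (A ∩ G.neighborSet v) ∅ m := by
      rw [← mul_add]
      exact Nat.mul_le_mul_left _ (h1.trans (Nat.add_le_add_left h2 _))
    have h6 : (k + 1) * Fintype.card X = k * Fintype.card X + Fintype.card X := by ring
    omega

/-- bounds for the Euler characteristic of a full subcomplex at the finite level -/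
theorem chi_upper {V X : Type} [Fintype V] [LinearOrder V] [Fintype X] (G : SimpleGraph V) {N : ℕ} {a : V → X → X}
    (h : GoodSet G N a) (m : ℕ) (A : Set V) (hA : ∀ i, i ≠ m → Even (i + m) → LV (G.induce A) i) :
    (N : ℚ) * ((-1) ^ m * (Fintype.card X * chiS G A)) ≤
      N * beta G (pull ℝ a) A ∅ m + (Fintype.card V + 1) * Fintype.card X := by
  rw [← eulA G h A, Finset.mul_sum, Finset.mul_sum]
  have hX : (0 : ℚ) ≤ Fintype.card X := Nat.cast_nonneg _
  have hb : ∀ i, (0 : ℚ) ≤ N * (beta G (pull ℝ a) A ∅ i : ℚ) := fun i => by positivity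
  have h1 : ∀ i ∈ Finset.range (Fintype.card V + 1),
      (N : ℚ) * ((-1) ^ m * ((-1 : ℚ) ^ i * (beta G (pull ℝ a) A ∅ i : ℚ))) ≤
        (if i = m then (N : ℚ) * (beta G (pull ℝ a) A ∅ m : ℚ) else 0) + Fintype.card X := by
    intro i _
    have h2 : (N : ℚ) * ((-1) ^ m * ((-1 : ℚ) ^ i * (beta G (pull ℝ a) A ∅ i : ℚ))) =
        (-1 : ℚ) ^ (i + m) * (N * (beta G (pull ℝ a) A ∅ i : ℚ)) := by
      rw [pow_add]; ring
    rw [h2]
    by_cases him : i = m
    · subst him
      rw [if_pos rfl, Even.neg_one_pow ⟨i, rfl⟩, one_mul]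
      linarith
    · rw [if_neg him, zero_add]
      rcases Nat.even_or_odd (i + m) with he | ho
      · rw [he.neg_one_pow, one_mul]
        exact_mod_cast h.sm A i (hA i him he)
      · rw [ho.neg_one_pow]
        have := hb i
        linarith
  refine (Finset.sum_le_sum h1).trans ?_
  rw [Finset.sum_add_distrib, Finset.sum_const, Finset.card_range, nsmul_eq_mul, Finset.sum_ite_eq']
  push_cast
  refine add_le_add ?_ (le_refl _)
  split_ifs
  · exact le_refl _
  · exact hb m

theorem chi_lower {V X : Type} [Fintype V] [LinearOrder V] [Fintype X] (G : SimpleGraph V) {N : ℕ} {a : V → X → X}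
    (h : GoodSet G N a) (m : ℕ) (A : Set V) (hA : ∀ i, Odd (i + m) → LV (G.induce A) i) :
    N * beta G (pull ℝ a) A ∅ m ≤
      (N : ℚ) * ((-1) ^ m * (Fintype.card X * chiS G A)) + (Fintype.card V + 1) * Fintype.card X := by
  rw [← eulA G h A, Finset.mul_sum, Finset.mul_sum]
  have hX : (0 : ℚ) ≤ Fintype.card X := Nat.cast_nonneg _
  have hb : ∀ i, (0 : ℚ) ≤ N * (beta G (pull ℝ a) A ∅ i : ℚ) := fun i => by positivity
  have h1 : ∀ i ∈ Finset.range (Fintype.card V + 1),
        (if i = m then (N : ℚ) * (beta G (pull ℝ a) A ∅ m : ℚ) else 0) ≤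
      (N : ℚ) * ((-1) ^ m * ((-1 : ℚ) ^ i * (beta G (pull ℝ a) A ∅ i : ℚ))) + Fintype.card X := by
    intro i _
    have h2 : (N : ℚ) * ((-1) ^ m * ((-1 : ℚ) ^ i * (beta G (pull ℝ a) A ∅ i : ℚ))) =
        (-1 : ℚ) ^ (i + m) * (N * (beta G (pull ℝ a) A ∅ i : ℚ)) := by
      rw [pow_add]; ring
    rw [h2]
    by_cases him : i = m
    · subst him
      rw [if_pos rfl, Even.neg_one_pow ⟨i, rfl⟩, one_mul]
      linarith
    · rw [if_neg him]
      rcases Nat.even_or_odd (i + m) with he | ho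
      · rw [he.neg_one_pow, one_mul]
        have := hb i
        linarith
      · rw [ho.neg_one_pow]
        have h3 : (N : ℚ) * (beta G (pull ℝ a) A ∅ i : ℚ) ≤ Fintype.card X := by
          exact_mod_cast h.sm A i (hA i ho)
        linarith
  have h4 := Finset.sum_le_sum h1
  rw [Finset.sum_add_distrib, Finset.sum_const, Finset.card_range, nsmul_eq_mul, Finset.sum_ite_eq'] at h4
  push_cast at h4
  refine le_trans ?_ h4
  split_ifs with hm
  · exact le_refl _
  · rw [Finset.mem_range, not_lt] at hm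
    rw [beta_big G _ A ∅ (by omega), Nat.cast_zero, mul_zero]

/-- comparison of the Euler characteristics of full subcomplexes `A ⊆ B` -/
theorem chi_mono {V : Type} [Fintype V] [LinearOrder V] (G : SimpleGraph V) (m : ℕ) (A B : Set V) (hAB : A ⊆ B)
    (hL : ∀ v ∈ B, ∀ D : Set V, D ⊆ B ∩ G.neighborSet v → LV (G.induce D) m)
    (hA : ∀ i, i ≠ m → Even (i + m) → LV (G.induce A) i) (hB : ∀ i, Odd (i + m) → LV (G.induce B) i) :
    (-1 : ℚ) ^ m * chiS G A ≤ (-1 : ℚ) ^ m * chiS G B := by
  by_contra hneg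
  push Not at hneg
  obtain ⟨δ, hδ⟩ : ∃ δ : ℚ, δ = (-1 : ℚ) ^ m * chiS G A - (-1 : ℚ) ^ m * chiS G B := ⟨_, rfl⟩
  have hδ0 : 0 < δ := by rw [hδ]; linarith
  obtain ⟨C, hC⟩ : ∃ C : ℚ, C = 2 * ((Fintype.card V : ℚ) + 1) + (B \ A).ncard := ⟨_, rfl⟩
  obtain ⟨N, hN⟩ := exists_nat_gt (C / δ)
  obtain ⟨X, _, _, a, h⟩ := good_set G N
  have hX : (0 : ℚ) < Fintype.card X := by exact_mod_cast Fintype.card_pos
  have h1 := chi_upper G h m A hA
  have h2 := chi_lower G h m B hB
  have h3 : (N : ℚ) * (beta G (pull ℝ a) A ∅ m : ℚ) ≤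
      N * (beta G (pull ℝ a) B ∅ m : ℚ) + (B \ A).ncard * Fintype.card X := by
    exact_mod_cast mono_fin G h m B hL _ A hAB rfl
  have h4 : (N : ℚ) * δ * Fintype.card X ≤ C * Fintype.card X := by
    rw [hδ, hC]
    linarith
  have h5 : (N : ℚ) * δ ≤ C := le_of_mul_le_mul_right h4 hX
  rw [div_lt_iff₀ hδ0] at hN
  linarith

/-- Comparison theorem for homology spheres of dimension `2 m - 1`: the Euler characteristic of the special subgroup of
a full subcomplex without `ℓ²`-homology in the degrees `m - 2, m - 4, …` is bounded by that of the whole group. -/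
theorem chi_sphere {m : ℕ} {V : Type} [Fintype V] [LinearOrder V] (S : SimpleGraph V) (hP : P (2 * m) S)
    (hS : HSph (2 * m) S) (A : Set V) (hA : ∀ i, i < m → Even (i + m) → LV (S.induce A) i) :
    (-1 : ℚ) ^ m * chiS S A ≤ (-1 : ℚ) ^ m * chiW S := by
  rw [← chiS_univ]
  refine chi_mono S m A Set.univ (Set.subset_univ _) (fun v _ D hD => ?_) (fun i hi he => ?_) (fun i ho => ?_)
  · exact P_link hP v D (hD.trans Set.inter_subset_right) m (by omega)
  · rcases lt_or_gt_of_ne hi with h | h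
    · exact hA i h he
    · exact (Q_of_P S hP).2 A i (by omega)
  · rw [lv_univ]
    refine lv_of (singer_of_above hS (fun j hj => lv_of_P hP j hj _ _) i ?_)
    intro h
    rw [Nat.odd_iff] at ho
    omega

end Pool.Agent.Q169.RC
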