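import Pool.Agent.Q169.RC.Mono

set_option autoImplicit false

/-!
# Relative Betti numbers at a vertex
-/

namespace Pool.Agent.Q169.RC

open Pool.Agent.W907.SG Pool.Agent.W907.SM Pool.Agent.TH652.Above Pool.Agent.W397.SG Pool.Agent.Y132.SI Module

open Classical in
theorem KK_dim2 {V X F : Type} [Field F] [Fintype V] [Fintype X] [LinearOrder V] (G : SimpleGraph V)
    (a : V → X → X) (A : Set V) (v : V)
    (i : ℕ) : finrank F (KK G (pull F a) A {v} i) =
      ∑ T : Finset V, if G.IsClique (T : Set V) ∧ (T : Set V) ⊆ A ∧ T.card = i then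
        finrank F (ET F a (insert v T)) else 0 := by
  obtain ⟨p, hp⟩ : ∃ p : Finset V → Submodule F (X → F), p = fun T : Finset V =>
    if G.IsClique (T : Set V) ∧ (T : Set V) ⊆ A ∧ T.card = i then ET F a (insert v T) else ⊥ := ⟨_, rfl⟩
  have hmem : ∀ c : Finset V → (X → F), c ∈ KK G (pull F a) A {v} i ↔ ∀ T, c T ∈ p T := by
    intro c
    rw [mem_KK]
    constructor
    · rintro ⟨h1, h2⟩ T
      rw [hp]
      simp only []
      split_ifs with h
      · intro t ht x
        have := h2 T t (by
          rw [Finset.mem_insert] at ht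
          rcases ht with ht | ht
          · exact Or.inr ht
          · exact Or.inl ht)
        exact congrFun this x
      · rw [Submodule.mem_bot]
        exact h1 T h
    · intro h
      refine ⟨fun T hT => ?_, fun T t ht => ?_⟩
      · have h3 := h T
        rw [hp] at h3
        simp only [] at h3
        rw [if_neg hT] at h3
        exact h3
      · have h3 := h T
        rw [hp] at h3
        simp only [] at h3
        have ht' : t ∈ insert v T := by
          rw [Finset.mem_insert]
          rcases ht with ht | ht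
          · exact Or.inr ht
          · exact Or.inl ht
        split_ifs at h3 with h4
        · funext x
          exact h3 t ht' x
        · have h5 : c T = 0 := h3
          rw [h5, map_zero, neg_zero]
  have e : KK G (pull F a) A {v} i ≃ₗ[F] (∀ T : Finset V, p T) :=
    { toFun := fun c T => ⟨c.1 T, (hmem c.1).1 c.2 T⟩
      map_add' := fun _ _ => rfl
      map_smul' := fun _ _ => rfl
      invFun := fun g => ⟨fun T => (g T).1, (hmem _).2 fun T => (g T).2⟩
      left_inv := fun _ => rfl
      right_inv := fun _ => rfl }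
  rw [e.finrank_eq, Module.finrank_pi_fintype]
  refine Finset.sum_congr rfl fun T _ => ?_
  by_cases h : G.IsClique (T : Set V) ∧ (T : Set V) ⊆ A ∧ T.card = i
  · have h1 : p T = ET F a (insert v T) := by rw [hp]; exact if_pos h
    rw [h1, if_pos h]
  · have h1 : p T = ⊥ := by rw [hp]; exact if_neg h
    rw [h1, if_neg h, finrank_bot]

/-- the alternating sum of the relative Betti numbers at a vertex -/
theorem eul_rel {V X : Type} [Fintype V] [LinearOrder V] [Fintype X] (G : SimpleGraph V) {N : ℕ} {a : V → X → X}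
    (h : GoodSet G N a) (v : V) (A : Set V) (hA : A ⊆ G.neighborSet v) :
    ∑ i ∈ Finset.range (Fintype.card V + 1), (-1 : ℚ) ^ i * (beta G (pull ℝ a) A {v} i : ℚ) =
      Fintype.card X / 2 * chiS G A := by
  classical
  have h1 := euler G (pull ℝ a) A {v} (Fintype.card V)
  have hBB : finrank ℝ (BB G (pull ℝ a) A {v} (Fintype.card V)) = 0 := by
    unfold BB
    rw [KK_big G _ A {v} (by omega : Fintype.card V < Fintype.card V + 1),
      Submodule.map_bot, finrank_bot]
  rw [hBB, Nat.cast_zero, mul_zero, sub_zero] at h1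
  have h2 := congrArg (Int.cast : ℤ → ℚ) h1
  push_cast at h2
  rw [h2]
  have h3 : ∀ i ∈ Finset.range (Fintype.card V + 1), (-1 : ℚ) ^ i *
      (finrank ℝ (KK G (pull ℝ a) A {v} i) : ℚ) =
      ∑ T : Finset V, if T.card = i then (Fintype.card X : ℚ) / 2 *
        (if G.IsClique (T : Set V) ∧ (T : Set V) ⊆ A then (-1 / 2 : ℚ) ^ T.card else 0) else 0 := by
    intro i _
    rw [KK_dim2, Nat.cast_sum, Finset.mul_sum]
    refine Finset.sum_congr rfl fun T _ => ?_
    by_cases hT : G.IsClique (T : Set V) ∧ (T : Set V) ⊆ A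
    · by_cases hi : T.card = i
      · have hvT : v ∉ T := fun hv => (hA (hT.2 hv)).ne rfl
        have hcl : G.IsClique ((insert v T : Finset V) : Set V) := by
          rw [Finset.coe_insert, SimpleGraph.isClique_insert]
          exact ⟨hT.1, fun t ht _ => hA (hT.2 ht)⟩
        have h4 := ET_dim' (F := ℝ) two_ne_zero G a h.inv h.comm (fun T t h5 h6 => by
          refine h.sig T t h5 ?_
          convert h6) (insert v T) hcl
        rw [Finset.card_insert_of_notMem hvT] at h4
        rw [if_pos ⟨hT.1, hT.2, hi⟩, if_pos hi, if_pos hT, ← h4, ← hi]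
        push_cast
        rw [div_pow, pow_succ]
        field_simp
      · rw [if_neg (fun h => hi h.2.2), if_neg hi]
        simp
    · rw [if_neg (fun h => hT ⟨h.1, h.2.1⟩), if_neg hT]
      simp
  rw [Finset.sum_congr rfl h3, Finset.sum_comm, chiS, Finset.mul_sum]
  refine Finset.sum_congr rfl fun T _ => ?_
  have h5 : T.card ∈ Finset.range (Fintype.card V + 1) := by
    rw [Finset.mem_range]
    have := Finset.card_le_univ T
    omega
  rw [Finset.sum_ite_eq, if_pos h5]
  congr

/-- removing a condition at a second vertex -/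
theorem eig_le2 {V Y : Type} [Fintype V] [LinearOrder V] [Fintype Y] {G : SimpleGraph V} (a : V → Y → Y)
    (hinv : ∀ v y, a v (a v y) = y) (hcomm : ∀ u v, G.Adj u v → ∀ y, a u (a v y) = a v (a u y)) (A : Set V)
    (v w : V) (hvw : G.Adj v w) (hA : A ⊆ G.neighborSet w) (i : ℕ) :
    beta G (pull ℝ a) A (insert w {v}) i ≤ beta G (pull ℝ a) A {v} i := by
  refine eig V ℝ (Y → ℝ) G (pull ℝ a) A {v} w (by norm_num)
    (fun m => by
      funext x
      rw [pull_apply, pull_apply, hinv])
    (fun u hu m => by
      have hu' : G.Adj u w := by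
        rcases hu with hu | hu
        · exact (hA hu).symm
        · rw [Set.mem_singleton_iff] at hu
          rw [hu]
          exact hvw
      funext x
      rw [pull_apply, pull_apply, pull_apply, pull_apply, hcomm u w hu']) i

/-- monotonicity for the relative Betti numbers at the vertex `v` -/
theorem rel_mono {V X : Type} [Fintype V] [LinearOrder V] [Fintype X] (G : SimpleGraph V) {N : ℕ} {a : V → X → X}
    (h : GoodSet G N a) (m : ℕ) (v : V) (B : Set V) (hB : B ⊆ G.neighborSet v)
    (hL : ∀ w ∈ B, ∀ D : Set V, D ⊆ B ∩ G.neighborSet w → LV (G.induce D) m) :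
    ∀ (k : ℕ) (A : Set V), A ⊆ B → (B \ A).ncard = k →
      N * beta G (pull ℝ a) A {v} m ≤ N * beta G (pull ℝ a) B {v} m + k * Fintype.card X := by
  intro k
  induction k with
  | zero =>
    intro A hA hk
    rw [Set.ncard_eq_zero, Set.sdiff_eq_empty] at hk
    rw [Set.Subset.antisymm hA hk]
    omega
  | succ k ih =>
    intro A hA hk
    obtain ⟨w, hw⟩ : (B \ A).Nonempty := by
      rw [← Set.ncard_pos]; omega
    have h1 := vdel V ℝ (X → ℝ) G (pull ℝ a) A {v} w hw.2 m
    have h2 := eig_le2 a h.inv h.comm (A ∩ G.neighborSet w) v w (hB hw.1) Set.inter_subset_right m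
    have h2' := eig_le a h.inv h.comm (A ∩ G.neighborSet w) v
      (Set.inter_subset_left.trans (hA.trans hB)) m
    have h3 := h.sm (A ∩ G.neighborSet w) m (hL w hw.1 _ (Set.inter_subset_inter_left _ hA))
    have h4 := ih (insert w A) (Set.insert_subset hw.1 hA) (by
      have h4 : B \ insert w A = (B \ A) \ {w} := by
        ext x
        simp only [Set.mem_sdiff, Set.mem_insert_iff, not_or, Set.mem_singleton_iff]
        tauto
      have h5 := Set.ncard_sdiff_singleton_add_one hw (Set.toFinite _)
      rw [h4]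
      omega)
    have h5 : N * beta G (pull ℝ a) A {v} m ≤
        N * beta G (pull ℝ a) (insert w A) {v} m + N * beta G (pull ℝ a) (A ∩ G.neighborSet w) ∅ m := by
      rw [← mul_add]
      exact Nat.mul_le_mul_left _ (h1.trans (Nat.add_le_add_left (h2.trans h2') _))
    have h6 : (k + 1) * Fintype.card X = k * Fintype.card X + Fintype.card X := by ring
    omega

/-- an upper bound for the relative Betti number at a vertex -/
theorem rel_lower {V X : Type} [Fintype V] [LinearOrder V] [Fintype X] (G : SimpleGraph V) {N : ℕ} {a : V → X → X}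
    (h : GoodSet G N a) (m : ℕ) (v : V) (A : Set V) (hAv : A ⊆ G.neighborSet v)
    (hA : ∀ i, Odd (i + m) → LV (G.induce A) i) :
    N * beta G (pull ℝ a) A {v} m ≤
      (N : ℚ) * ((-1) ^ m * (Fintype.card X / 2 * chiS G A)) + (Fintype.card V + 1) * Fintype.card X := by
  rw [← eul_rel G h v A hAv, Finset.mul_sum, Finset.mul_sum]
  have hX : (0 : ℚ) ≤ Fintype.card X := Nat.cast_nonneg _
  have hb : ∀ i, (0 : ℚ) ≤ N * (beta G (pull ℝ a) A {v} i : ℚ) := fun i => by positivity
  have h1 : ∀ i ∈ Finset.range (Fintype.card V + 1),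
        (if i = m then (N : ℚ) * (beta G (pull ℝ a) A {v} m : ℚ) else 0) ≤
      (N : ℚ) * ((-1) ^ m * ((-1 : ℚ) ^ i * (beta G (pull ℝ a) A {v} i : ℚ))) + Fintype.card X := by
    intro i _
    have h2 : (N : ℚ) * ((-1) ^ m * ((-1 : ℚ) ^ i * (beta G (pull ℝ a) A {v} i : ℚ))) =
        (-1 : ℚ) ^ (i + m) * (N * (beta G (pull ℝ a) A {v} i : ℚ)) := by
      rw [pow_add]; ring
    rw [h2]
    by_cases him : i = m
    · subst him
      rw [if_pos rfl, Even.neg_one_pow ⟨i, rfl⟩, one_mul]
      linarith
    · rw [if_neg him]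
      rcases Nat.even_or_odd (i + m) with he | ho
      · rw [he.neg_one_pow, one_mul]
        have := hb i
        linarith
      · rw [ho.neg_one_pow]
        have h3 : (N : ℚ) * (beta G (pull ℝ a) A {v} i : ℚ) ≤ Fintype.card X := by
          have h4 := eig_le a h.inv h.comm A v hAv i
          have h5 := h.sm A i (hA i ho)
          exact_mod_cast (Nat.mul_le_mul_left N h4).trans h5
        linarith
  have h4 := Finset.sum_le_sum h1
  rw [Finset.sum_add_distrib, Finset.sum_const, Finset.card_range, nsmul_eq_mul, Finset.sum_ite_eq'] at h4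
  push_cast at h4
  refine le_trans ?_ h4
  split_ifs with hm
  · exact le_refl _
  · rw [Finset.mem_range, not_lt] at hm
    rw [beta_big G _ A {v} (by omega), Nat.cast_zero, mul_zero]

/-- the bound for the Betti numbers when vertices are added -/
theorem add_bound {V X : Type} [Fintype V] [LinearOrder V] [Fintype X] (G : SimpleGraph V) {N : ℕ} {a : V → X → X}
    (h : GoodSet G N a) (m : ℕ) (B : Set V)
    (hL : ∀ v, v ∉ B → (∀ w ∈ G.neighborSet v, ∀ D : Set V, D ⊆ G.neighborSet v ∩ G.neighborSet w →
      LV (G.induce D) m) ∧ ∀ i, Odd (i + m) → LV (G.induce (G.neighborSet v)) i) :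
    ∀ (C : Finset V), (∀ v ∈ C, v ∉ B) →
      (N : ℚ) * beta G (pull ℝ a) (B ∪ C) ∅ (m + 1) ≤ N * beta G (pull ℝ a) B ∅ (m + 1) +
        ∑ v ∈ C, ((N : ℚ) * ((-1) ^ m * (Fintype.card X / 2 * chiS G (G.neighborSet v))) +
          (2 * Fintype.card V + 1) * Fintype.card X) := by
  classical
  intro C
  induction C using Finset.induction_on with
  | empty =>
    intro _
    rw [Finset.coe_empty, Set.union_empty, Finset.sum_empty, add_zero]
  | insert v C hv ih =>
    intro hC
    have h1 := ih (fun u hu => hC u (Finset.mem_insert_of_mem hu))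
    have hvB := hC v (Finset.mem_insert_self _ _)
    obtain ⟨h2, h3⟩ := hL v hvB
    have h4 : B ∪ ((insert v C : Finset V) : Set V) = insert v (B ∪ (C : Set V)) := by
      rw [Finset.coe_insert, Set.union_insert]
    have h5 : v ∉ B ∪ (C : Set V) := by
      rintro (h | h)
      · exact hvB h
      · exact hv h
    have h6 := (vert V ℝ (X → ℝ) G (pull ℝ a) (B ∪ (C : Set V)) ∅ v h5 (Set.notMem_empty v)).2 m
    have e5 : (insert v (∅ : Set V)) = {v} := by simp
    rw [e5] at h6
    have h7 := rel_mono G h m v (G.neighborSet v) (le_refl _) h2 _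
      ((B ∪ (C : Set V)) ∩ G.neighborSet v) Set.inter_subset_right rfl
    have h8 := rel_lower G h m v (G.neighborSet v) (le_refl _) h3
    have h9 : (G.neighborSet v \ ((B ∪ (C : Set V)) ∩ G.neighborSet v)).ncard ≤ Fintype.card V := by
      have h10 := Set.ncard_le_ncard (Set.subset_univ
        (G.neighborSet v \ ((B ∪ (C : Set V)) ∩ G.neighborSet v))) (Set.toFinite _)
      rw [Set.ncard_univ, Nat.card_eq_fintype_card] at h10
      exact h10
    rw [h4, Finset.sum_insert hv]
    have h11 : (N : ℚ) * beta G (pull ℝ a) (insert v (B ∪ (C : Set V))) ∅ (m + 1) ≤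
        N * beta G (pull ℝ a) (B ∪ (C : Set V)) ∅ (m + 1) +
        N * beta G (pull ℝ a) ((B ∪ (C : Set V)) ∩ G.neighborSet v) {v} m := by
      rw [← mul_add]
      refine mul_le_mul_of_nonneg_left ?_ (Nat.cast_nonneg _)
      exact_mod_cast h6
    have h12 : (N : ℚ) * beta G (pull ℝ a) ((B ∪ (C : Set V)) ∩ G.neighborSet v) {v} m ≤
        N * beta G (pull ℝ a) (G.neighborSet v) {v} m + Fintype.card V * Fintype.card X := by
      have h13 := h7.trans (Nat.add_le_add_left (Nat.mul_le_mul_right (Fintype.card X) h9) _)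
      exact_mod_cast h13
    have h14 : (2 * (Fintype.card V : ℚ) + 1) * Fintype.card X =
        Fintype.card V * Fintype.card X + (Fintype.card V + 1) * Fintype.card X := by ring
    linarith [h14]

end Pool.Agent.Q169.RC
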