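import Pool.Agent.Q169.RC.Stress
import Pool.Agent.Q169.RC.Flat
import Pool.Agent.W500.KS.Alg
import Pool.Agent.W837.KS.Pn
import Pool.Agent.W101.KS.PL
import Pool.Agent.W253.KS.Ev
import Pool.Agent.W646.KS.T1
import Pool.Agent.W349.KS.T1EO
import Pool.Agent.W837.KS.Exp
import Pool.Agent.W907.SM.All

set_option autoImplicit false

/-!
# `ℓ²`-vanishing in the top degree from the vanishing of the van Kampen obstruction
-/

namespace Pool.Agent.Q169.RC

open Finset Pool.Agent.W907.SG Pool.Agent.W907.SM Pool.Agent.W555.KS Pool.Agent.Q169.RC.St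

theorem t1eT : StT1E :=
  _root_.W349.KS.t1e (Pool.Agent.W646.KS.t1 Pool.Agent.W837.KS.exp)
    (Pool.Agent.W500.KS.alg Pool.Agent.W837.KS.pn Pool.Agent.W101.KS.PL.pl Pool.Agent.W253.KS.ev)

theorem sg_smul {V : Type} [Fintype V] [LinearOrder V] {k : Type} [Field k] [CharP k 2] (v : V) (T : Finset V)
    (x : k) : sg v T • x = x := by
  rcases sg_eq_or v T with h | h
  · rw [h, one_smul]
  · rw [h, neg_smul, one_smul, CharTwo.neg_eq]

/-- the generic line complex has no cycles in the top degree -/
theorem ex_top {n δ : ℕ} (G : SimpleGraph (Fin n)) (κ : Fin n → Fin (δ + 1))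
    (hκ : ∀ u v, G.Adj u v → κ u ≠ κ v) (K : Finset (Finset (Fin n))) (hK : IsCx K)
    (hGK : ∀ T : Finset (Fin n), G.IsClique (T : Set (Fin n)) → T ∈ K) (hV : VK K (2 * δ + 1 + 1)) :
    EX G κ Set.univ (fun v => gx v) Set.univ (δ + 1) := by
  classical
  have hchar : CharP (kk n) 2 := by
    have h1 : CharP (MvPolynomial (Fin n) (ZMod 2)) 2 := inferInstance
    exact charP_of_injective_algebraMap (IsFractionRing.injective (MvPolynomial (Fin n) (ZMod 2)) (kk n)) 2
  intro z hz hbz
  obtain ⟨ε0, hε0⟩ : ∃ ε0 : Fin (δ + 1) → Bool, ε0 = fun _ => false := ⟨_, rfl⟩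
  obtain ⟨ζ, hζ⟩ : ∃ ζ : Finset (Fin n) → kk n, ζ = fun T => z T ε0 := ⟨_, rfl⟩
  have h0 : ∀ T, ζ T ≠ 0 → T ∈ K ∧ T.card = δ + 1 ∧ Set.InjOn κ (T : Set (Fin n)) := by
    intro T hT
    have h1 : G.IsClique (T : Set (Fin n)) ∧ (T : Set (Fin n)) ⊆ Set.univ ∧ T.card = δ + 1 := by
      by_contra h
      apply hT
      rw [hζ]
      show z T ε0 = 0
      rw [hz.supp T h]
      rfl
    refine ⟨hGK T h1.1, h1.2.2, ?_⟩
    intro a ha b hb hab
    by_contra hne
    exact hκ a b (h1.1 ha hb hne) hab
  -- the missing colour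
  have hmiss : ∀ (T' : Finset (Fin n)) (i : Fin (δ + 1)) (v : Fin n), κ v = i → v ∉ T' → ζ (insert v T') ≠ 0 →
      ∀ v', v' ∉ T' → ζ (insert v' T') ≠ 0 → κ v' = i := by
    intro T' i v hv hvT h1 v' hvT' h2
    obtain ⟨-, c1, j1⟩ := h0 _ h1
    obtain ⟨-, c2, j2⟩ := h0 _ h2
    have e1 : (insert v T').image κ = univ := by
      rw [← card_eq_iff_eq_univ, card_image_of_injOn j1, c1, Fintype.card_fin]
    have e2 : κ v' ∈ (insert v T').image κ := by rw [e1]; exact mem_univ _
    rw [image_insert, mem_insert] at e2
    rcases e2 with e2 | e2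
    · rw [e2, hv]
    · exfalso
      obtain ⟨u, hu, hu2⟩ := mem_image.1 e2
      have := j2 (by simp [hu]) (by simp) hu2
      exact hvT' (this ▸ hu)
  have hb : ∀ (T' : Finset (Fin n)) (ε : Fin (δ + 1) → Bool), ∑ v ∈ T'ᶜ, z (insert v T') ε = 0 := by
    intro T' ε
    have e1 := congrFun (congrFun hbz T') ε
    unfold bdd at e1
    rw [Finset.sum_apply, Pi.zero_apply, Pi.zero_apply] at e1
    rw [← e1]
    refine sum_congr rfl fun v _ => ?_
    rw [Pi.smul_apply, sg_smul]
  have hzero : ∀ T, ζ T = 0 → ∀ ε, z T ε = 0 := by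
    intro T hT ε
    by_cases hc : G.IsClique (T : Set (Fin n)) ∧ (T : Set (Fin n)) ⊆ Set.univ ∧ T.card = δ + 1
    · have hinj : Set.InjOn κ (T : Set (Fin n)) := by
        intro a ha b hb hab
        by_contra hne
        exact hκ a b (hc.1 ha hb hne) hab
      have himg : T.image κ = univ := by
        rw [← card_eq_iff_eq_univ, card_image_of_injOn hinj, hc.2.2, Fintype.card_fin]
      have key : ∀ s : Finset (Fin (δ + 1)), z T (fun c => decide (c ∈ s)) = 0 := by
        intro s
        induction s using Finset.induction_on with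
        | empty =>
          have e1 : (fun c : Fin (δ + 1) => decide (c ∈ (∅ : Finset (Fin (δ + 1))))) = ε0 := by
            rw [hε0]; funext c; simp
          rw [e1]
          rw [hζ] at hT
          exact hT
        | insert c s hcs ih =>
          have e2 : c ∈ T.image κ := by rw [himg]; exact mem_univ _
          obtain ⟨t, ht, htc⟩ := mem_image.1 e2
          have e3 : (fun c' : Fin (δ + 1) => decide (c' ∈ insert c s)) =
              Function.update (fun c' => decide (c' ∈ s)) (κ t) true := by
            funext c'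
            rw [htc]
            by_cases h : c' = c
            · subst h; simp
            · simp [Function.update_of_ne h, h]
          have e4 : Function.update (fun c' : Fin (δ + 1) => decide (c' ∈ s)) (κ t) false =
              fun c' => decide (c' ∈ s) := by
            funext c'
            rw [htc]
            by_cases h : c' = c
            · subst h; simp [hcs]
            · simp [Function.update_of_ne h]
          rw [e3, hz.line T t ht trivial, e4, ih, mul_zero]
      have e5 : ε = fun c => decide (c ∈ univ.filter (fun c => ε c = true)) := by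
        funext c
        by_cases h : ε c = true
        · simp [h]
        · simp [h]
      rw [e5]
      exact key _
    · rw [hz.supp T hc]
      rfl
  have hfin : ζ = 0 := by
    refine zeta_zero t1eT Pool.Agent.W646.KS.ind K κ hK hV ζ h0 (fun T' i => ?_) (fun T' i => ?_)
    · by_cases hA : ∃ v, κ v = i ∧ v ∉ T' ∧ ζ (insert v T') ≠ 0
      · obtain ⟨v, hv, hvT, hne⟩ := hA
        rw [← hb T' ε0]
        have e1 : univ.filter (fun v => κ v = i ∧ v ∉ T') ⊆ T'ᶜ := by
          intro u hu
          rw [mem_filter] at hu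
          rw [mem_compl]
          exact hu.2.2
        rw [← sum_subset e1]
        · rw [hζ]
        · intro u hu hu2
          by_contra h
          apply hu2
          rw [mem_compl] at hu
          rw [mem_filter]
          refine ⟨mem_univ _, hmiss T' i v hv hvT hne u hu ?_, hu⟩
          rw [hζ]
          exact h
      · push Not at hA
        refine sum_eq_zero fun v hv => ?_
        rw [mem_filter] at hv
        exact hA v hv.2.1 hv.2.2
    · by_cases hA : ∃ v, κ v = i ∧ v ∉ T' ∧ ζ (insert v T') ≠ 0
      · obtain ⟨v, hv, hvT, hne⟩ := hA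
        rw [← hb T' (Function.update ε0 i true)]
        have e1 : univ.filter (fun v => κ v = i ∧ v ∉ T') ⊆ T'ᶜ := by
          intro u hu
          rw [mem_filter] at hu
          rw [mem_compl]
          exact hu.2.2
        rw [← sum_subset e1]
        · refine sum_congr rfl fun u hu => ?_
          rw [mem_filter] at hu
          have e2 := hz.line (insert u T') u (mem_insert_self _ _) trivial ε0
          have e3 : Function.update ε0 (κ u) false = ε0 := by
            funext c
            by_cases h : c = κ u
            · subst h; simp [hε0]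
            · rw [Function.update_of_ne h]
          rw [e3, hu.2.1] at e2
          rw [e2, hζ]
        · intro u hu hu2
          rw [mem_compl] at hu
          refine hzero _ ?_ _
          by_contra h
          apply hu2
          rw [mem_filter]
          exact ⟨mem_univ _, hmiss T' i v hv hvT hne u hu h, hu⟩
      · push Not at hA
        refine sum_eq_zero fun v hv => ?_
        rw [mem_filter] at hv
        rw [hA v hv.2.1 hv.2.2, mul_zero]
  have hz0 : z = 0 := by
    funext T ε
    exact hzero T (by rw [hfin]; rfl) ε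
  refine ⟨0, ⟨fun _ _ => rfl, fun _ _ _ _ _ => by simp⟩, ?_⟩
  rw [hz0]
  funext T
  simp [bdd]

/-- `ℓ²`-vanishing in the top degree -/
theorem l2_top {n δ : ℕ} (G : SimpleGraph (Fin n)) (κ : Fin n → Fin (δ + 1))
    (hκ : ∀ u v, G.Adj u v → κ u ≠ κ v) (K : Finset (Finset (Fin n))) (hK : IsCx K)
    (hGK : ∀ T : Finset (Fin n), G.IsClique (T : Set (Fin n)) → T ∈ K) (hV : VK K (2 * δ + 1 + 1)) :
    L2Van G (δ + 1) :=
  l2_of_ex t1 t2 t3 t4 t6 (Fin n) (Fin (δ + 1)) G κ (δ + 1) hκ (ex_top G κ hκ K hK hGK hV)

end Pool.Agent.Q169.RC
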