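import Pool.Agent.Q169.RC.AtT
import Pool.Agent.Y365.FS.Wt2

set_option autoImplicit false

/-!
# Weighted Charney-Davis quantities and coloured exceptional vertices
-/

namespace Pool.Agent.Q169.RC

open Finset Pool.Agent.W907.SG Pool.Agent.W907.SM Pool.Agent.W555.KS Pool.Agent.TH652.Above

variable {N : ℕ}

theorem cl_univ_iff (G : SimpleGraph (Fin N)) (T : Finset (Fin N)) :
    T ∈ Pool.Agent.W497.FS.cl G Finset.univ ↔ G.IsClique (T : Set (Fin N)) := by
  rw [Pool.Agent.W497.FS.mem_cl]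
  constructor
  · intro h x hx y hy hxy
    exact h.2 x hx y hy hxy
  · intro h
    exact ⟨subset_univ _, fun x hx y hy hxy => h hx hy hxy⟩

theorem lam_lkF (G : SimpleGraph (Fin N)) (T : Finset (Fin N)) :
    Pool.Agent.W497.FS.lam G (Pool.Agent.W497.FS.lkF G Finset.univ T) = chiS G (lk G T) := by
  classical
  have hS : chiS G (lk G T) = ∑ S ∈ univ.filter (fun S : Finset (Fin N) => G.IsClique (S : Set (Fin N)) ∧
      (S : Set (Fin N)) ⊆ lk G T), (-1 / 2 : ℚ) ^ S.card := by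
    rw [sum_filter]
    unfold chiS
    refine sum_congr rfl fun S _ => ?_
    congr
  rw [hS]
  unfold Pool.Agent.W497.FS.lam Pool.Agent.W497.FS.fe
  refine sum_congr ?_ fun _ _ => rfl
  ext S
  rw [Pool.Agent.W497.FS.mem_cl, mem_filter]
  constructor
  · rintro ⟨h1, h2⟩
    refine ⟨mem_univ _, fun x hx y hy hxy => h2 x hx y hy hxy, ?_⟩
    intro x hx
    have h3 := Pool.Agent.W497.FS.mem_lkF.1 (h1 hx)
    intro t ht
    exact (h3.2 t ht).symm
  · rintro ⟨-, h1, h2⟩
    refine ⟨?_, fun x hx y hy hxy => h1 hx hy hxy⟩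
    intro x hx
    refine Pool.Agent.W497.FS.mem_lkF.2 ⟨mem_univ _, fun t ht => ?_⟩
    exact (h2 hx t ht).symm

/-- the weighted quantity as a combination of the quantities of the links -/
theorem weighted (G : SimpleGraph (Fin N)) (K : Finset (Finset (Fin N)))
    (hK : ∀ S : Finset (Fin N), S ∈ K ↔ G.IsClique (S : Set (Fin N))) (O : Finset (Fin N) → ℚ) :
    ∑ σ ∈ K, (-1) ^ σ.card / O σ = ∑ T ∈ K, (-1) ^ T.card * Y365.FS.bN O T * chiS G (lk G T) := by
  have h1 : K = Pool.Agent.W497.FS.cl G Finset.univ := by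
    ext S
    rw [hK, cl_univ_iff]
  rw [h1, Y365.FS.weighted_eq]
  exact sum_congr rfl fun T _ => by rw [lam_lkF]

/-- the coefficient of the link of `T` -/
def coefO (O : Finset (Fin N) → ℚ) (T : Finset (Fin N)) : ℚ :=
  (-1) ^ (T.card / 2) * ∑ U ∈ T.powerset, (-1 / 2) ^ (T.card - U.card) / O U

theorem coefO_nonneg {K : Finset (Finset (Fin N))} {O : Finset (Fin N) → ℚ} (hO : Y365.FS.GoodOrders K O)
    {T : Finset (Fin N)} (hT : T ∈ K) (he : Even T.card) : 0 ≤ coefO O T := by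
  obtain ⟨j, hj⟩ := he
  have h4 : T.card / 2 = j := by omega
  have h1 := (hO T hT).2 j (by omega)
  rw [coefO, h4]
  exact h1

theorem weighted_even {m : ℕ} (G : SimpleGraph (Fin N)) (K : Finset (Finset (Fin N)))
    (hK : ∀ S : Finset (Fin N), S ∈ K ↔ G.IsClique (S : Set (Fin N))) (hle : ∀ S ∈ K, S.card ≤ 2 * m)
    (O : Finset (Fin N) → ℚ) (hO : Y365.FS.GoodOrders K O) :
    (-1 : ℚ) ^ m * ∑ σ ∈ K, (-1) ^ σ.card / O σ =
      ∑ T ∈ K.filter (fun T => Even T.card), coefO O T * ((-1) ^ (m - T.card / 2) * chiS G (lk G T)) := by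
  rw [weighted G K hK, mul_sum, sum_filter]
  refine sum_congr rfl fun T hT => ?_
  split_ifs with he
  · obtain ⟨j, hj⟩ := he
    have hTm := hle T hT
    obtain ⟨l, hl⟩ : ∃ l, m = j + l := ⟨m - j, by omega⟩
    have h4 : T.card / 2 = j := by omega
    have h5 : m - T.card / 2 = l := by omega
    rw [h5, coefO, h4]
    have h6 : (-1 : ℚ) ^ T.card = 1 := by rw [hj]; exact Even.neg_one_pow ⟨j, rfl⟩
    rw [h6, hl, pow_add]
    unfold Y365.FS.bN
    ring
  · rw [(hO T hT).1 (Nat.not_even_iff_odd.1 he)]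
    simp

section main

variable {m : ℕ} (G : SimpleGraph (Fin N)) (K : Finset (Finset (Fin N)))
    (hK : ∀ S : Finset (Fin N), S ∈ K ↔ G.IsClique (S : Set (Fin N)))
    (h2 : Pool.Agent.Y131.KS.HSph K (2 * m)) (hR : HSph (2 * m) G)

include hK h2 hR in
/-- the signs of the links of the even faces, if the exceptional vertices are coloured -/
theorem sign_links (B : Set (Fin N)) (κ : Fin N → Fin (m + 1))
    (hκ : ∀ u v, u ∈ B → v ∈ B → G.Adj u v → κ u ≠ κ v)
    (hB : ∀ v, v ∉ B → ∀ T : Finset (Fin N), v ∈ T → G.IsClique (T : Set (Fin N)) → Good (2 * m) G T)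
    (T : Finset (Fin N)) (hT : G.IsClique (T : Set (Fin N))) (he : Even T.card) :
    0 ≤ (-1 : ℚ) ^ (m - T.card / 2) * chiS G (lk G T) := by
  classical
  obtain ⟨j, hj⟩ := he
  have hTm := h2.card_le _ ((hK _).2 hT)
  obtain ⟨l, hl⟩ : ∃ l, m = j + l := ⟨m - j, by omega⟩
  have h5 : m - T.card / 2 = l := by omega
  rw [h5]
  by_cases hTB : ∀ t ∈ T, t ∈ B
  · -- the colours of the vertices of `T` do not occur in the link
    have hinj : Set.InjOn κ T := by
      intro a ha b hb hab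
      by_contra hne
      exact hκ a b (hTB a ha) (hTB b hb) (hT ha hb hne) hab
    have hc : (univ \ T.image κ).card = m + 1 - T.card := by
      rw [card_univ_sdiff, Fintype.card_fin, card_image_of_injOn hinj]
    obtain ⟨e, he⟩ : ∃ e : Fin (m + 1) → Fin (l + 1), Set.InjOn e (↑(univ \ T.image κ) : Set (Fin (m + 1))) := by
      have h6 : Fintype.card ↥(univ \ T.image κ) ≤ Fintype.card (Fin (l + 1)) := by
        rw [Fintype.card_coe, hc, Fintype.card_fin]
        omega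
      obtain ⟨f⟩ := Function.Embedding.nonempty_of_card_le h6
      refine ⟨fun x => if h : x ∈ univ \ T.image κ then f ⟨x, h⟩ else 0, ?_⟩
      intro x hx y hy hxy
      rw [mem_coe] at hx hy
      simp only [dif_pos hx, dif_pos hy] at hxy
      exact congrArg Subtype.val (f.injective hxy)
    refine sign_at G K hK h2 hR T hT (by omega) (B ∩ lk G T) (fun v => e (κ v)) ?_ ?_
    · intro u v hu hv huv h6
      have h7 : ∀ x, x ∈ B ∩ lk G T → κ x ∈ (↑(univ \ T.image κ) : Set (Fin (m + 1))) := by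
        intro x hx
        rw [mem_coe, mem_sdiff, mem_image]
        refine ⟨mem_univ _, ?_⟩
        rintro ⟨t, ht, h8⟩
        exact hκ x t hx.1 (hTB t ht) (hx.2 t ht) h8.symm
      exact hκ u v hu.1 hv.1 huv (he (h7 u hu) (h7 v hv) h6)
    · intro v hv hvB T' hT' hc'
      refine hB v (fun h => hvB ⟨h, hv⟩) T' (hT' (mem_insert_self _ _)) hc'
  · push Not at hTB
    obtain ⟨t, ht, htB⟩ := hTB
    refine sign_at G K hK h2 hR T hT (by omega) ∅ (fun _ => 0) (fun u _ hu => absurd hu (Set.notMem_empty u)) ?_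
    intro v hv _ T' hT' hc'
    exact hB t htB T' (hT' (mem_insert_of_mem ht)) hc'

include hK h2 hR in
theorem weighted_ge (B : Set (Fin N)) (κ : Fin N → Fin (m + 1))
    (hκ : ∀ u v, u ∈ B → v ∈ B → G.Adj u v → κ u ≠ κ v)
    (hB : ∀ v, v ∉ B → ∀ T : Finset (Fin N), v ∈ T → G.IsClique (T : Set (Fin N)) → Good (2 * m) G T)
    (O : Finset (Fin N) → ℚ) (hO : Y365.FS.GoodOrders K O) (h0 : O ∅ = 1) :
    0 ≤ (-1 : ℚ) ^ m * chiW G ∧
    (-1 : ℚ) ^ m * chiW G ≤ (-1 : ℚ) ^ m * ∑ σ ∈ K, (-1) ^ σ.card / O σ := by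
  classical
  have hemp : G.IsClique ((∅ : Finset (Fin N)) : Set (Fin N)) := by simp
  have hu : lk G (∅ : Finset (Fin N)) = Set.univ := by
    ext x
    simp only [Set.mem_univ, iff_true]
    exact fun t ht => absurd ht (notMem_empty t)
  have h3 := sign_links G K hK h2 hR B κ hκ hB
  refine ⟨?_, ?_⟩
  · have h4 := h3 ∅ hemp (by simp)
    rw [hu, chiS_univ] at h4
    simpa using h4
  · rw [weighted_even G K hK h2.card_le O hO]
    have h1 : coefO O ∅ * ((-1 : ℚ) ^ (m - (∅ : Finset (Fin N)).card / 2) * chiS G (lk G ∅)) =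
        (-1 : ℚ) ^ m * chiW G := by
      rw [hu, chiS_univ]
      simp [coefO, h0]
    rw [← h1]
    refine single_le_sum (f := fun T => coefO O T * ((-1 : ℚ) ^ (m - T.card / 2) * chiS G (lk G T)))
      (fun T hT => ?_) (mem_filter.2 ⟨(hK _).2 hemp, by simp⟩)
    obtain ⟨hT1, hT2⟩ := mem_filter.1 hT
    exact mul_nonneg (coefO_nonneg hO hT1 hT2) (h3 T ((hK _).1 hT1) hT2)

include hK h2 hR in
theorem weighted_join (hg : ∀ T : Finset (Fin N), G.IsClique (T : Set (Fin N)) → Good (2 * m) G T)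
    (O : Finset (Fin N) → ℚ) (hO : Y365.FS.GoodOrders K O)
    (C : Finset (Finset (Fin N))) (A : Finset (Fin N) → Set (Fin N))
    (p : ∀ T : Finset (Fin N), Fin N → Fin (m - T.card / 2))
    (hC : ∀ T ∈ C, G.IsClique (T : Set (Fin N)) ∧ Even T.card ∧ A T ⊆ lk G T ∧
      (∀ u ∈ A T, ∀ v ∈ A T, p T u ≠ p T v → G.Adj u v) ∧
      ∀ j, ∃ s ∈ A T, ∃ t ∈ A T, p T s = j ∧ p T t = j ∧ s ≠ t ∧ ¬ G.Adj s t) :
    ∑ T ∈ C, coefO O T * ∏ j : Fin (m - T.card / 2), (- chiS G (A T ∩ {v | p T v = j})) ≤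
      (-1 : ℚ) ^ m * ∑ σ ∈ K, (-1) ^ σ.card / O σ := by
  classical
  rw [weighted_even G K hK h2.card_le O hO]
  have hsub : C ⊆ K.filter (fun T => Even T.card) := by
    intro T hT
    exact mem_filter.2 ⟨(hK _).2 (hC T hT).1, (hC T hT).2.1⟩
  refine (sum_le_sum fun T hT => ?_).trans (sum_le_sum_of_subset_of_nonneg hsub fun T hT _ => ?_)
  · obtain ⟨h3, h4, h5, h6, h7⟩ := hC T hT
    refine mul_le_mul_of_nonneg_left ?_ (coefO_nonneg hO ((hK _).2 h3) h4)
    have hTm := h2.card_le _ ((hK _).2 h3)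
    obtain ⟨j, hj⟩ := h4
    exact join_at G K hK h2 hR T h3 (by omega) (fun T' _ hc => hg T' hc) (A T) h5 (p T) h6 h7
  · obtain ⟨hT1, hT2⟩ := mem_filter.1 hT
    refine mul_nonneg (coefO_nonneg hO hT1 hT2) ?_
    exact sign_links G K hK h2 hR ∅ (fun _ => 0) (fun u _ hu => absurd hu (Set.notMem_empty u))
      (fun v _ T' _ hc => hg T' hc) T ((hK _).1 hT1) hT2

end main

end Pool.Agent.Q169.RC
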